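import Mathlib

set_option autoImplicit false
set_option linter.unusedSectionVars false

/-!
`F`-degrees and `F`-irregular graphs.
-/

namespace Pool.Agent.H19

/-- The `F`-degree of `x` in `G`: the number of subgraphs of `G` (not necessarily induced) that are
isomorphic to `F` and contain `x`. -/
noncomputable def fDegree {V W : Type} (F : SimpleGraph W) (G : SimpleGraph V) (x : V) : ℕ :=
  Nat.card {H : G.Subgraph // Nonempty (H.coe ≃g F) ∧ x ∈ H.verts}

/-- `G` is `F`-irregular if its vertices have pairwise distinct `F`-degrees. -/
def FIrregular {V W : Type} (F : SimpleGraph W) (G : SimpleGraph V) : Prop :=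
  ∀ x y : V, x ≠ y → fDegree F G x ≠ fDegree F G y

/-- There are infinitely many pairwise non-isomorphic finite `F`-irregular graphs. -/
def InfinitelyManyIrregular {W : Type} (F : SimpleGraph W) : Prop :=
  ∃ (V : ℕ → Type) (G : ∀ i, SimpleGraph (V i)),
    (∀ i, Finite (V i)) ∧ (∀ i, FIrregular F (G i)) ∧
      ∀ i j, i ≠ j → ¬ Nonempty (G i ≃g G j)

section clique

variable {V : Type} [Fintype V] [DecidableEq V]

/-- The complete subgraph spanned by a finite set of vertices. -/
def cliqueSub (G : SimpleGraph V) (T : Finset V) : G.Subgraph := (⊤ : G.Subgraph).induce T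

lemma cliqueSub_verts (G : SimpleGraph V) (T : Finset V) : (cliqueSub G T).verts = T := rfl

lemma cliqueSub_adj (G : SimpleGraph V) (T : Finset V) (a b : V) :
    (cliqueSub G T).Adj a b ↔ a ∈ T ∧ b ∈ T ∧ G.Adj a b := by
  simp [cliqueSub]

lemma fDegree_top (G : SimpleGraph V) (n : ℕ) (x : V) :
    fDegree (⊤ : SimpleGraph (Fin n)) G x = Set.ncard {T : Finset V | G.IsNClique n T ∧ x ∈ T} := by
  classical
  have hset : {H : G.Subgraph | Nonempty (H.coe ≃g (⊤ : SimpleGraph (Fin n))) ∧ x ∈ H.verts} =
      cliqueSub G '' {T : Finset V | G.IsNClique n T ∧ x ∈ T} := by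
    ext H
    constructor
    · rintro ⟨⟨φ⟩, hx⟩
      have hadj : ∀ a b, a ∈ H.verts → b ∈ H.verts → a ≠ b → H.Adj a b := by
        intro a b ha hb hab
        have h1 : H.coe.Adj ⟨a, ha⟩ ⟨b, hb⟩ := by
          rw [← φ.map_adj_iff, SimpleGraph.top_adj]
          intro h
          apply hab
          have := φ.injective h
          exact congrArg Subtype.val this
        exact h1
      refine ⟨H.verts.toFinset, ⟨⟨?_, ?_⟩, by simpa using hx⟩, ?_⟩
      · intro a ha b hb hab
        rw [Set.coe_toFinset] at ha hb
        exact (hadj a b ha hb hab).adj_sub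
      · have h1 : Fintype.card H.verts = Fintype.card (Fin n) := Fintype.card_congr φ.toEquiv
        rw [Set.toFinset_card, h1, Fintype.card_fin]
      · ext a b
        · simp [cliqueSub_verts]
        · rw [cliqueSub_adj]
          simp only [Set.mem_toFinset]
          constructor
          · rintro ⟨ha, hb, hab⟩
            exact hadj a b ha hb hab.ne
          · intro hab
            exact ⟨H.edge_vert hab, H.edge_vert hab.symm, hab.adj_sub⟩
    · rintro ⟨T, ⟨hT, hx⟩, rfl⟩
      refine ⟨?_, hx⟩
      have hcard : Fintype.card (cliqueSub G T).verts = Fintype.card (Fin n) := by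
        rw [Fintype.card_fin, ← hT.card_eq]
        have : (cliqueSub G T).verts = (T : Set V) := rfl
        simp [this]
      let e := Fintype.equivOfCardEq hcard
      refine ⟨⟨e, ?_⟩⟩
      intro a b
      rw [SimpleGraph.top_adj, e.injective.ne_iff, SimpleGraph.Subgraph.coe_adj, cliqueSub_adj]
      constructor
      · intro hab
        refine ⟨a.2, b.2, ?_⟩
        exact hT.isClique a.2 b.2 (fun h => hab (Subtype.ext h))
      · rintro ⟨_, _, hab⟩ h
        rw [h] at hab
        exact hab.ne rfl
  have hinj : Function.Injective (cliqueSub G) := by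
    intro T T' h
    have := congrArg SimpleGraph.Subgraph.verts h
    rw [cliqueSub_verts, cliqueSub_verts] at this
    exact Finset.coe_injective this
  have h1 : fDegree (⊤ : SimpleGraph (Fin n)) G x =
      Set.ncard {H : G.Subgraph | Nonempty (H.coe ≃g (⊤ : SimpleGraph (Fin n))) ∧ x ∈ H.verts} :=
    rfl
  rw [h1, hset, Set.ncard_image_of_injective _ hinj]

end clique

section star

variable {V : Type} [Fintype V] [DecidableEq V]

/-- The star with centre `c` and leaves the elements of `L` adjacent to `c`. -/
def starSub (G : SimpleGraph V) (q : V × Finset V) : G.Subgraph where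
  verts := {v | v = q.1 ∨ (v ∈ q.2 ∧ G.Adj q.1 v)}
  Adj a b := (a = q.1 ∧ b ∈ q.2 ∧ G.Adj q.1 b) ∨ (b = q.1 ∧ a ∈ q.2 ∧ G.Adj q.1 a)
  adj_sub := by
    rintro a b (⟨rfl, _, h⟩ | ⟨rfl, _, h⟩)
    · exact h
    · exact h.symm
  edge_vert := by
    rintro a b (⟨rfl, _, h⟩ | ⟨rfl, h1, h⟩)
    · exact Or.inl rfl
    · exact Or.inr ⟨h1, h⟩
  symm := ⟨by
    rintro a b (h | h)
    · exact Or.inr h
    · exact Or.inl h⟩

lemma starSub_adj (G : SimpleGraph V) (c : V) (L : Finset V) (a b : V) :
    (starSub G (c, L)).Adj a b ↔
      (a = c ∧ b ∈ L ∧ G.Adj c b) ∨ (b = c ∧ a ∈ L ∧ G.Adj c a) := Iff.rfl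

lemma mem_starSub_verts (G : SimpleGraph V) (c : V) (L : Finset V) (v : V) :
    v ∈ (starSub G (c, L)).verts ↔ v = c ∨ (v ∈ L ∧ G.Adj c v) := Iff.rfl

lemma fDegree_star (G : SimpleGraph V) [DecidableRel G.Adj] (n : ℕ) (hn : 2 ≤ n) (x : V) :
    fDegree (completeBipartiteGraph (Fin 1) (Fin n)) G x =
      (G.degree x).choose n + ∑ y ∈ G.neighborFinset x, (G.degree y - 1).choose (n - 1) := by
  classical
  set P : Finset (V × Finset V) := (Finset.univ : Finset (V × Finset V)).filter
    (fun q => q.2 ∈ Finset.powersetCard n (G.neighborFinset q.1) ∧ (x = q.1 ∨ x ∈ q.2)) with hP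
  have hset : {H : G.Subgraph | Nonempty (H.coe ≃g completeBipartiteGraph (Fin 1) (Fin n)) ∧
      x ∈ H.verts} = starSub G '' (P : Set (V × Finset V)) := by
    ext H
    constructor
    · rintro ⟨⟨φ⟩, hx⟩
      set c : V := (φ.symm (Sum.inl 0)).1 with hc
      set l : Fin n → V := fun i => (φ.symm (Sum.inr i)).1 with hl
      have hlinj : Function.Injective l := by
        intro i j hij
        have h1 : φ.symm (Sum.inr i) = φ.symm (Sum.inr j) := Subtype.ext hij
        exact Sum.inr_injective (φ.symm.injective h1)
      have hadj : ∀ i, H.Adj c (l i) := by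
        intro i
        have : H.coe.Adj (φ.symm (Sum.inl 0)) (φ.symm (Sum.inr i)) := by
          rw [φ.symm.map_adj_iff]
          simp
        exact this
      have hverts : ∀ v ∈ H.verts, v = c ∨ ∃ i, v = l i := by
        intro v hv
        rcases hφ : φ ⟨v, hv⟩ with a | i
        · left
          have h1 : (⟨v, hv⟩ : H.verts) = φ.symm (Sum.inl a) := by rw [← hφ]; simp
          have h2 : a = 0 := Subsingleton.elim _ _
          rw [h2] at h1
          exact congrArg Subtype.val h1
        · right
          refine ⟨i, ?_⟩
          have h1 : (⟨v, hv⟩ : H.verts) = φ.symm (Sum.inr i) := by rw [← hφ]; simp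
          exact congrArg Subtype.val h1
      have hnl : ∀ i j, ¬ H.Adj (l i) (l j) := by
        intro i j hij
        have : H.coe.Adj (φ.symm (Sum.inr i)) (φ.symm (Sum.inr j)) := hij
        rw [φ.symm.map_adj_iff] at this
        simp at this
      refine ⟨(c, Finset.univ.image l), ?_, ?_⟩
      · rw [hP, Finset.coe_filter]
        refine ⟨Finset.mem_univ _, ?_, ?_⟩
        · rw [Finset.mem_powersetCard]
          constructor
          · intro v hv
            obtain ⟨i, _, rfl⟩ := Finset.mem_image.mp hv
            rw [SimpleGraph.mem_neighborFinset]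
            exact (hadj i).adj_sub
          · rw [Finset.card_image_of_injective _ hlinj, Finset.card_univ, Fintype.card_fin]
        · rcases hverts x hx with h | ⟨i, h⟩
          · exact Or.inl h
          · right
            rw [h]
            exact Finset.mem_image_of_mem _ (Finset.mem_univ i)
      · ext a b
        · rw [mem_starSub_verts]
          constructor
          · rintro (rfl | ⟨h1, h2⟩)
            · exact (φ.symm (Sum.inl 0)).2
            · obtain ⟨i, _, rfl⟩ := Finset.mem_image.mp h1
              exact (φ.symm (Sum.inr i)).2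
          · intro ha
            rcases hverts a ha with h | ⟨i, h⟩
            · exact Or.inl h
            · right
              rw [h]
              exact ⟨Finset.mem_image_of_mem _ (Finset.mem_univ i), (hadj i).adj_sub⟩
        · rw [starSub_adj]
          constructor
          · rintro (⟨rfl, h1, _⟩ | ⟨rfl, h1, _⟩)
            · obtain ⟨i, _, rfl⟩ := Finset.mem_image.mp h1
              exact hadj i
            · obtain ⟨i, _, rfl⟩ := Finset.mem_image.mp h1
              exact (hadj i).symm
          · intro hab
            rcases hverts a (H.edge_vert hab) with h | ⟨i, h⟩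
            · rcases hverts b (H.edge_vert hab.symm) with h' | ⟨j, h'⟩
              · rw [h, h'] at hab
                exact absurd rfl hab.ne
              · left
                rw [h']
                exact ⟨h, Finset.mem_image_of_mem _ (Finset.mem_univ j), (hadj j).adj_sub⟩
            · rcases hverts b (H.edge_vert hab.symm) with h' | ⟨j, h'⟩
              · right
                rw [h]
                exact ⟨h', Finset.mem_image_of_mem _ (Finset.mem_univ i), (hadj i).adj_sub⟩
              · rw [h, h'] at hab
                exact absurd hab (hnl i j)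
    · rintro ⟨⟨c, L⟩, hq, rfl⟩
      rw [hP, Finset.coe_filter] at hq
      obtain ⟨_, hL, hx⟩ := hq
      rw [Finset.mem_powersetCard] at hL
      obtain ⟨hLN, hLc⟩ := hL
      have hadj : ∀ v ∈ L, G.Adj c v := fun v hv => by
        have := hLN hv
        simpa using this
      refine ⟨?_, ?_⟩
      · have hcard : Fintype.card (Fin n) = Fintype.card L := by simp [hLc]
        let e : Fin n ≃ L := Fintype.equivOfCardEq hcard
        let g : Fin 1 ⊕ Fin n → (starSub G (c, L)).verts := Sum.elim
          (fun _ => ⟨c, Or.inl rfl⟩) (fun i => ⟨(e i).1, Or.inr ⟨(e i).2, hadj _ (e i).2⟩⟩)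
        have hgbij : Function.Bijective g := by
          constructor
          · rintro (i | i) (j | j) hij
            · rw [Subsingleton.elim i j]
            · exfalso
              have h1 : c = (e j).1 :=
                congrArg (Subtype.val : (starSub G (c, L)).verts → V) hij
              have h2 := hadj _ (e j).2
              rw [← h1] at h2
              exact h2.ne rfl
            · exfalso
              have h1 : (e i).1 = c :=
                congrArg (Subtype.val : (starSub G (c, L)).verts → V) hij
              have h2 := hadj _ (e i).2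
              rw [h1] at h2
              exact h2.ne rfl
            · have h1 : (e i).1 = (e j).1 :=
                congrArg (Subtype.val : (starSub G (c, L)).verts → V) hij
              rw [e.injective (Subtype.ext h1)]
          · rintro ⟨v, hv⟩
            rcases hv with h0 | ⟨h1, h2⟩
            · exact ⟨Sum.inl 0, Subtype.ext h0.symm⟩
            · refine ⟨Sum.inr (e.symm ⟨v, h1⟩), ?_⟩
              apply Subtype.ext
              simp [g]
        let E := Equiv.ofBijective g hgbij
        have hiso : (completeBipartiteGraph (Fin 1) (Fin n)) ≃g (starSub G (c, L)).coe := by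
          refine ⟨E, ?_⟩
          intro a b
          have hE : ∀ a, E a = g a := fun a => rfl
          rw [SimpleGraph.Subgraph.coe_adj, hE, hE, starSub_adj]
          have hne : ∀ i, (e i).1 ≠ c := by
            intro i h1
            have h2 := hadj _ (e i).2
            rw [h1] at h2
            exact h2.ne rfl
          rcases a with a | a <;> rcases b with b | b
          · simp [g]
          · simp [g, hadj _ (e b).2]
          · simp [g, hadj _ (e a).2]
          · simp [g, hne]
        exact ⟨hiso.symm⟩
      · rw [mem_starSub_verts]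
        rcases hx with h | h
        · exact Or.inl h
        · exact Or.inr ⟨h, hadj _ h⟩
  have hinj : Set.InjOn (starSub G) (P : Set (V × Finset V)) := by
    rintro ⟨c, L⟩ hq ⟨c', L'⟩ hq' heq
    rw [hP, Finset.coe_filter] at hq hq'
    obtain ⟨_, hL, -⟩ := hq
    obtain ⟨_, hL', -⟩ := hq'
    rw [Finset.mem_powersetCard] at hL hL'
    obtain ⟨hLN, hLc⟩ := hL
    obtain ⟨hLN', hLc'⟩ := hL'
    have hadj : ∀ v ∈ L, G.Adj c v := fun v hv => by
      have := hLN hv
      simpa using this
    have hadj' : ∀ v ∈ L', G.Adj c' v := fun v hv => by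
      have := hLN' hv
      simpa using this
    have hiff : ∀ a b, (starSub G (c, L)).Adj a b ↔ (starSub G (c', L')).Adj a b := by
      intro a b; rw [heq]
    have hcc : c = c' := by
      by_contra hne
      -- L' has two elements
      have h2 : 1 < L'.card := by rw [hLc']; omega
      obtain ⟨u, hu, v, hv, huv⟩ := Finset.one_lt_card.mp h2
      have h3 : ∀ w ∈ L', w = c := by
        intro w hw
        have h4 := (hiff c' w).mpr (by
          rw [starSub_adj]
          exact Or.inl ⟨rfl, hw, hadj' w hw⟩)
        rw [starSub_adj] at h4
        rcases h4 with ⟨h5, _, _⟩ | ⟨h5, _, _⟩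
        · exact absurd h5.symm hne
        · exact h5
      exact huv ((h3 u hu).trans (h3 v hv).symm)
    subst hcc
    have hLL : L = L' := by
      ext v
      constructor
      · intro hv
        have h4 := (hiff c v).mp (by
          rw [starSub_adj]
          exact Or.inl ⟨rfl, hv, hadj v hv⟩)
        rw [starSub_adj] at h4
        rcases h4 with ⟨_, h5, _⟩ | ⟨h5, _, h6⟩
        · exact h5
        · exact absurd rfl h6.ne
      · intro hv
        have h4 := (hiff c v).mpr (by
          rw [starSub_adj]
          exact Or.inl ⟨rfl, hv, hadj' v hv⟩)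
        rw [starSub_adj] at h4
        rcases h4 with ⟨_, h5, _⟩ | ⟨h5, _, h6⟩
        · exact h5
        · exact absurd rfl h6.ne
    rw [hLL]
  have h1 : fDegree (completeBipartiteGraph (Fin 1) (Fin n)) G x =
      Set.ncard {H : G.Subgraph | Nonempty (H.coe ≃g completeBipartiteGraph (Fin 1) (Fin n)) ∧
        x ∈ H.verts} := rfl
  rw [h1, hset, hinj.ncard_image, Set.ncard_coe_finset]
  -- counting
  have hcount : P.card = ∑ c : V, ((Finset.powersetCard n (G.neighborFinset c)).filter
      (fun L => x = c ∨ x ∈ L)).card := by
    rw [← Finset.card_sigma]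
    apply Finset.card_bij (fun q _ => (⟨q.1, q.2⟩ : (_ : V) × Finset V))
    · rintro ⟨c, L⟩ hq
      rw [hP, Finset.mem_filter] at hq
      simp only [Finset.mem_sigma, Finset.mem_univ, true_and, Finset.mem_filter]
      exact hq.2
    · rintro ⟨c, L⟩ _ ⟨c', L'⟩ _ h
      simp only [Sigma.mk.injEq, heq_eq_eq] at h
      rw [h.1, h.2]
    · rintro ⟨c, L⟩ hq
      simp only [Finset.mem_sigma, Finset.mem_univ, true_and, Finset.mem_filter] at hq
      refine ⟨(c, L), ?_, rfl⟩
      rw [hP, Finset.mem_filter]
      exact ⟨Finset.mem_univ _, hq⟩
  rw [hcount]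
  have hsplit : ∀ c : V, ((Finset.powersetCard n (G.neighborFinset c)).filter
      (fun L => x = c ∨ x ∈ L)).card = (if x = c then (G.degree x).choose n else 0) +
        (if c ∈ G.neighborFinset x then (G.degree c - 1).choose (n - 1) else 0) := by
    intro c
    by_cases hxc : x = c
    · subst hxc
      simp
    · by_cases hcx : c ∈ G.neighborFinset x
      · have hxN : x ∈ G.neighborFinset c := by
          simp only [SimpleGraph.mem_neighborFinset] at hcx ⊢
          exact hcx.symm
        rw [if_neg hxc, if_pos hcx, zero_add]
        have : (Finset.powersetCard n (G.neighborFinset c)).filter (fun L => x = c ∨ x ∈ L) =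
            (Finset.powersetCard (n - 1) ((G.neighborFinset c).erase x)).image (insert x) := by
          ext L
          simp only [Finset.mem_filter, Finset.mem_powersetCard, Finset.mem_image, hxc, false_or]
          constructor
          · rintro ⟨⟨h1, h2⟩, h3⟩
            refine ⟨L.erase x, ⟨?_, ?_⟩, Finset.insert_erase h3⟩
            · exact Finset.erase_subset_erase x h1
            · rw [Finset.card_erase_of_mem h3, h2]
          · rintro ⟨K, ⟨h1, h2⟩, rfl⟩
            have hxK : x ∉ K := fun h => Finset.notMem_erase x _ (h1 h)
            refine ⟨⟨?_, ?_⟩, Finset.mem_insert_self x K⟩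
            · rw [Finset.insert_subset_iff]
              exact ⟨hxN, h1.trans (Finset.erase_subset _ _)⟩
            · rw [Finset.card_insert_of_notMem hxK, h2]
              omega
        rw [this, Finset.card_image_of_injOn, Finset.card_powersetCard,
          Finset.card_erase_of_mem hxN]
        · rfl
        · intro K hK K' hK' h
          rw [Finset.mem_coe, Finset.mem_powersetCard] at hK hK'
          have hxK : x ∉ K := fun h => Finset.notMem_erase x _ (hK.1 h)
          have hxK' : x ∉ K' := fun h => Finset.notMem_erase x _ (hK'.1 h)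
          have := congrArg (fun S => S.erase x) h
          simpa [Finset.erase_insert hxK, Finset.erase_insert hxK'] using this
      · rw [if_neg hxc, if_neg hcx, zero_add, Finset.card_eq_zero, Finset.filter_eq_empty_iff]
        intro L hL
        rw [Finset.mem_powersetCard] at hL
        rintro (h | h)
        · exact hxc h
        · have := hL.1 h
          simp only [SimpleGraph.mem_neighborFinset] at this hcx
          exact hcx this.symm
  simp_rw [hsplit]
  rw [Finset.sum_add_distrib, Finset.sum_ite_eq Finset.univ x, if_pos (Finset.mem_univ x),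
    Finset.sum_ite_mem, Finset.univ_inter]

end star

end Pool.Agent.H19
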