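import Mathlib

set_option autoImplicit false
set_option linter.unusedSectionVars false

/-!
Linear algebra of an integer matrix of finite order: adapted bases, the averaging projection and
the integrality of `det (1 - M)` (off the fixed space) times maximal minors of the projection.
-/

namespace Pool.Agent.H19

open Matrix Polynomial

variable {N : Type} [Fintype N] [DecidableEq N]

/-- The lattice of integer vectors fixed by `M`. -/
def fixZ (M : Matrix N N ℤ) : Submodule ℤ (N → ℤ) := LinearMap.ker (M.mulVecLin - LinearMap.id)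

lemma mem_fixZ {M : Matrix N N ℤ} {x : N → ℤ} : x ∈ fixZ M ↔ M.mulVec x = x := by
  simp [fixZ, sub_eq_zero]

instance (M : Matrix N N ℤ) : Module.IsTorsionFree ℤ ((N → ℤ) ⧸ fixZ M) := by
  constructor
  intro r hr x y hxy
  have hr0 : r ≠ 0 := by
    rintro rfl
    exact not_isRegular_zero hr
  obtain ⟨x, rfl⟩ := Submodule.Quotient.mk_surjective _ x
  obtain ⟨y, rfl⟩ := Submodule.Quotient.mk_surjective _ y
  have hxy' : (Submodule.Quotient.mk (r • x) : (N → ℤ) ⧸ fixZ M) = Submodule.Quotient.mk (r • y) :=
    hxy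
  rw [Submodule.Quotient.eq] at hxy'
  rw [Submodule.Quotient.eq]
  rw [mem_fixZ] at hxy' ⊢
  rw [← smul_sub, Matrix.mulVec_smul] at hxy'
  exact smul_right_injective _ hr0 hxy'

/-- cast of an integer vector -/
def castV {N : Type} (x : N → ℤ) : N → ℝ := fun i => (x i : ℝ)

/-- cast as a `ℤ`-linear map -/
def castL (N : Type) : (N → ℤ) →ₗ[ℤ] (N → ℝ) where
  toFun := castV
  map_add' x y := by funext i; simp [castV]
  map_smul' c x := by funext i; simp [castV]

@[simp] lemma castL_apply {N : Type} (x : N → ℤ) : castL N x = castV x := rfl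

lemma castV_injective {N : Type} : Function.Injective (castV : (N → ℤ) → (N → ℝ)) := by
  intro x y h
  funext i
  have := congrFun h i
  simpa [castV] using this

/-- the averaging map -/
noncomputable def avgL (M : Matrix N N ℤ) (m : ℕ) : (N → ℤ) →ₗ[ℤ] (N → ℝ) :=
  (1 / (m : ℝ)) • ∑ j ∈ Finset.range m, (castL N) ∘ₗ (M ^ j).mulVecLin

lemma avgL_apply (M : Matrix N N ℤ) (m : ℕ) (x : N → ℤ) :
    avgL M m x = (1 / (m : ℝ)) • ∑ j ∈ Finset.range m, castV ((M ^ j).mulVec x) := by
  simp [avgL]

lemma avgL_mulVec (M : Matrix N N ℤ) (m : ℕ) (hM : M ^ m = 1) (x : N → ℤ) :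
    avgL M m (M.mulVec x) = avgL M m x := by
  rw [avgL_apply, avgL_apply]
  congr 1
  have h1 : ∀ j, castV ((M ^ j).mulVec (M.mulVec x)) = castV ((M ^ (j + 1)).mulVec x) := by
    intro j
    rw [Matrix.mulVec_mulVec, pow_succ]
  simp_rw [h1]
  have h2 := Finset.sum_range_succ' (fun j => castV ((M ^ j).mulVec x)) m
  have h3 := Finset.sum_range_succ (fun j => castV ((M ^ j).mulVec x)) m
  rw [h3] at h2
  rw [hM, pow_zero] at h2
  exact (add_right_cancel h2).symm

lemma pow_mulVec_fix {M : Matrix N N ℤ} {x : N → ℤ} (hx : M.mulVec x = x) (j : ℕ) :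
    (M ^ j).mulVec x = x := by
  induction j with
  | zero => simp
  | succ j ih => rw [pow_succ, ← Matrix.mulVec_mulVec, hx, ih]

lemma avgL_fix (M : Matrix N N ℤ) (m : ℕ) (hm : 0 < m) (x : N → ℤ) (hx : x ∈ fixZ M) :
    avgL M m x = castV x := by
  rw [mem_fixZ] at hx
  rw [avgL_apply]
  simp_rw [pow_mulVec_fix hx]
  rw [Finset.sum_const, Finset.card_range]
  have : (m : ℝ) ≠ 0 := by exact_mod_cast hm.ne'
  rw [← Nat.cast_smul_eq_nsmul ℝ, smul_smul]
  rw [one_div, inv_mul_cancel₀ this, one_smul]

/-- A monic real polynomial without roots in `[1, ∞)` is positive at `1`. -/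
lemma eval_one_pos_of_monic {q : ℝ[X]} (hq : q.Monic) (hroot : ∀ s : ℝ, 1 ≤ s → q.eval s ≠ 0) :
    0 < q.eval 1 := by
  by_contra hneg
  have h1 : q.eval 1 < 0 := lt_of_le_of_ne (not_lt.mp hneg) (hroot 1 le_rfl)
  by_cases hdeg : 0 < q.degree
  · have ht := q.tendsto_atTop_of_leadingCoeff_nonneg hdeg (by rw [hq.leadingCoeff]; norm_num)
    obtain ⟨s, hs1, hs2⟩ := ((ht.eventually_gt_atTop 0).and (Filter.eventually_ge_atTop 1)).exists
    have hcont : ContinuousOn (fun x => q.eval x) (Set.Icc 1 s) := q.continuous.continuousOn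
    have := intermediate_value_Icc hs2 hcont
    obtain ⟨c, hc, hc0⟩ := this ⟨h1.le, hs1.le⟩
    exact hroot c hc.1 hc0
  · have : q = 1 := hq.degree_le_zero_iff_eq_one.mp (not_lt.mp hdeg)
    rw [this, eval_one] at h1
    linarith

/-- The main linear algebra statement. -/
theorem exists_adapted (M : Matrix N N ℤ) (m : ℕ) (hm : 0 < m) (hM : M ^ m = 1)
    {α : Type} [Fintype α] [DecidableEq α] (e : Module.Basis α ℤ (fixZ M)) :
    ∃ (D : ℤ) (q : ℤ[X]) (p : (N → ℤ) →ₗ[ℤ] (α → ℝ)),
      0 < D ∧ q.eval 1 = D ∧ M.charpoly = (X - C 1) ^ (Fintype.card α) * q ∧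
      (∀ a, p (e a) = Pi.single a 1) ∧
      (∀ x, ∑ a, p x a • castV (e a : N → ℤ) = avgL M m x) ∧
      (∀ x : α → (N → ℤ), ∃ z : ℤ, (D : ℝ) * (Matrix.of fun j a => p (x j) a).det = z) := by
  classical
  let bQ := Module.Free.chooseBasis ℤ ((N → ℤ) ⧸ fixZ M)
  set β := Module.Free.ChooseBasisIndex ℤ ((N → ℤ) ⧸ fixZ M) with hβ
  let bL : Module.Basis (α ⊕ β) ℤ (N → ℤ) := Module.Basis.sumQuot e bQ
  have hbLe : ∀ a, bL (Sum.inl a) = (e a : N → ℤ) := fun a => Module.Basis.sumQuot_inl e bQ a
  let T : Matrix (α ⊕ β) (α ⊕ β) ℤ := LinearMap.toMatrix bL bL M.mulVecLin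
  have hMe : ∀ a, M.mulVec (e a : N → ℤ) = e a := fun a => mem_fixZ.mp (e a).2
  have hT : ∀ i j, T i j = bL.repr (M.mulVec (bL j)) i := by
    intro i j
    simp [T, LinearMap.toMatrix_apply]
  have hTinl : ∀ i a, T i (Sum.inl a) = if i = Sum.inl a then 1 else 0 := by
    intro i a
    rw [hT, hbLe, hMe, ← hbLe, bL.repr_self, Finsupp.single_apply]
    simp only [eq_comm]
  set B : Matrix α β ℤ := T.toBlocks₁₂ with hB
  set A' : Matrix β β ℤ := T.toBlocks₂₂ with hA'
  have hTblocks : T = fromBlocks 1 B 0 A' := by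
    rw [← fromBlocks_toBlocks T]
    congr 1
    · ext i j
      rw [toBlocks₁₁, of_apply, hTinl]
      simp [Matrix.one_apply]
    · ext i j
      rw [toBlocks₂₁, of_apply, hTinl]
      simp
  have hTm : T ^ m = 1 := by
    have h1 : T = LinearMap.toMatrixAlgEquiv bL M.mulVecLin := rfl
    have h2 : M.mulVecLin ^ m = 1 := by
      have h3 : (Matrix.toLinAlgEquiv' (M ^ m) : (N → ℤ) →ₗ[ℤ] (N → ℤ)) = M.mulVecLin ^ m := by
        rw [map_pow]; rfl
      rw [← h3, hM, map_one]
    rw [h1, ← map_pow, h2, map_one]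
  have hpow : ∀ k : ℕ, (T ^ k).toBlocks₂₁ = 0 ∧ (T ^ k).toBlocks₂₂ = A' ^ k := by
    intro k
    induction k with
    | zero =>
      constructor
      · ext i j; simp [toBlocks₂₁]
      · ext i j; simp [toBlocks₂₂, Matrix.one_apply]
    | succ k ih =>
      have h1 : T ^ (k + 1) = fromBlocks ((T ^ k).toBlocks₁₁) ((T ^ k).toBlocks₁₂) 0 (A' ^ k) *
          fromBlocks 1 B 0 A' := by
        rw [pow_succ, ← hTblocks]
        congr 1
        conv_lhs => rw [← fromBlocks_toBlocks (T ^ k)]
        rw [ih.1, ih.2]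
      rw [h1, fromBlocks_multiply]
      constructor
      · simp
      · simp [pow_succ]
  have hA'm : A' ^ m = 1 := by
    rw [← (hpow m).2, hTm]
    ext i j; simp [toBlocks₂₂, Matrix.one_apply]
  -- images of the lifted basis
  have hMf : ∀ b, M.mulVec (bL (Sum.inr b)) =
      ∑ a, B a b • bL (Sum.inl a) + ∑ b', A' b' b • bL (Sum.inr b') := by
    intro b
    have h1 := bL.sum_repr (M.mulVec (bL (Sum.inr b)))
    rw [← h1, Fintype.sum_sum_type]
    congr 1
    · refine Finset.sum_congr rfl fun a _ => ?_
      rw [← hT]; rfl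
    · refine Finset.sum_congr rfl fun b' _ => ?_
      rw [← hT]; rfl
  -- nonsingularity of 1 - A'
  have hdet : (1 - A').det ≠ 0 := by
    intro h0
    obtain ⟨c, hc0, hc⟩ := Matrix.exists_mulVec_eq_zero_iff.mpr h0
    set x : N → ℤ := ∑ b, c b • bL (Sum.inr b) with hx
    have hMx : M.mulVec x = x + ∑ a, (B.mulVec c) a • bL (Sum.inl a) := by
      have h1 : M.mulVec x = ∑ b, c b • M.mulVec (bL (Sum.inr b)) := by
        rw [hx, Matrix.mulVec_sum]
        exact Finset.sum_congr rfl fun b _ => Matrix.mulVec_smul _ _ _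
      have hAc : A'.mulVec c = c := by
        rw [Matrix.sub_mulVec, Matrix.one_mulVec, sub_eq_zero] at hc
        exact hc.symm
      rw [h1]
      simp_rw [hMf, smul_add, Finset.smul_sum]
      rw [Finset.sum_add_distrib, add_comm]
      congr 1
      · rw [Finset.sum_comm, hx]
        refine Finset.sum_congr rfl fun b' _ => ?_
        have h2 : c b' = ∑ b, A' b' b * c b := by
          have := congrFun hAc b'
          rw [← this]; rfl
        conv_rhs => rw [h2, Finset.sum_smul]
        refine Finset.sum_congr rfl fun b _ => ?_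
        rw [smul_smul, mul_comm]
      · rw [Finset.sum_comm]
        refine Finset.sum_congr rfl fun a _ => ?_
        have h2 : (B.mulVec c) a = ∑ b, B a b * c b := rfl
        rw [h2, Finset.sum_smul]
        refine Finset.sum_congr rfl fun b _ => ?_
        rw [smul_smul, mul_comm]
    set y : N → ℤ := ∑ a, (B.mulVec c) a • bL (Sum.inl a) with hy
    have hMy : M.mulVec y = y := by
      rw [hy, Matrix.mulVec_sum]
      refine Finset.sum_congr rfl fun a _ => ?_
      rw [Matrix.mulVec_smul, hbLe, hMe]
    have hj : ∀ j : ℕ, (M ^ j).mulVec x = x + j • y := by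
      intro j
      induction j with
      | zero => simp
      | succ j ih =>
        rw [pow_succ', ← Matrix.mulVec_mulVec, ih, Matrix.mulVec_add, Matrix.mulVec_smul, hMx, hMy,
          succ_nsmul]
        abel
    have hmy : m • y = 0 := by
      have := hj m
      rw [hM, Matrix.one_mulVec] at this
      exact (left_eq_add.mp this)
    have hy0 : y = 0 := by
      rcases (smul_eq_zero.mp hmy) with h | h
      · exact absurd h hm.ne'
      · exact h
    have hxK : x ∈ fixZ M := by rw [mem_fixZ, hMx, hy0, add_zero]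
    apply hc0
    funext b
    have h1 : bL.repr x (Sum.inr b) = 0 := Module.Basis.sumQuot_repr_inr_of_mem e bQ x hxK b
    have h2 : bL.repr x (Sum.inr b) = c b := by
      rw [hx, map_sum, Finsupp.finsetSum_apply]
      simp only [map_smul, bL.repr_self, Finsupp.smul_single, smul_eq_mul, mul_one]
      rw [Finset.sum_eq_single b]
      · simp
      · intro b' _ hb'
        simp [hb']
      · intro h; exact absurd (Finset.mem_univ b) h
    rw [← h2, h1]; rfl
  -- real matrices
  set BR : Matrix α β ℝ := B.map (Int.castRingHom ℝ) with hBR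
  set AR : Matrix β β ℝ := A'.map (Int.castRingHom ℝ) with hAR
  have hdetR : (1 - AR).det = ((1 - A').det : ℤ) := by
    have h1 : (1 - AR) = (1 - A').map (Int.castRingHom ℝ) := by
      ext i j
      simp [hAR, Matrix.map_apply, Matrix.one_apply]
    rw [h1]
    exact (RingHom.map_det (Int.castRingHom ℝ) (1 - A')).symm
  have hdetR0 : (1 - AR).det ≠ 0 := by
    rw [hdetR]; exact_mod_cast hdet
  have hARm : AR ^ m = 1 := by
    have h1 : AR = (Int.castRingHom ℝ).mapMatrix A' := rfl
    rw [h1, ← map_pow, hA'm, map_one]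
  -- positivity
  have hposR : 0 < (AR.charpoly).eval 1 := by
    apply eval_one_pos_of_monic (Matrix.charpoly_monic AR)
    intro s hs hs0
    rw [Matrix.eval_charpoly] at hs0
    obtain ⟨c, hc0, hc⟩ := Matrix.exists_mulVec_eq_zero_iff.mpr hs0
    have hAc : AR.mulVec c = s • c := by
      rw [Matrix.sub_mulVec, sub_eq_zero] at hc
      rw [← hc]
      funext i
      simp [Matrix.scalar_apply, Matrix.mulVec_diagonal]
    have hj : ∀ j : ℕ, (AR ^ j).mulVec c = s ^ j • c := by
      intro j
      induction j with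
      | zero => simp
      | succ j ih => rw [pow_succ', ← Matrix.mulVec_mulVec, ih, Matrix.mulVec_smul, hAc,
          smul_smul, pow_succ]
    have h1 := hj m
    rw [hARm, Matrix.one_mulVec] at h1
    have h2 : s ^ m = 1 := by
      by_contra h2
      apply hc0
      have h3 : (s ^ m - 1) • c = 0 := by rw [sub_smul, ← h1, one_smul, sub_self]
      rcases smul_eq_zero.mp h3 with h | h
      · exact absurd (sub_eq_zero.mp h) h2
      · exact h
    have h3 : s = 1 := (pow_eq_one_iff_of_nonneg (by linarith) hm.ne').mp h2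
    apply hdetR0
    rw [← hs0, h3]
    simp
  have hqeval : (A'.charpoly).eval 1 = (1 - A').det := by
    rw [Matrix.eval_charpoly]
    simp
  have hDpos : 0 < (1 - A').det := by
    have h1 : (AR.charpoly).eval 1 = (1 - AR).det := by
      rw [Matrix.eval_charpoly]; simp
    rw [h1, hdetR] at hposR
    exact_mod_cast hposR
  -- the projection coordinates
  set C' : Matrix α β ℝ := BR * (1 - AR)⁻¹ with hC'
  let p : (N → ℤ) →ₗ[ℤ] (α → ℝ) :=
    bL.constr ℤ (Sum.elim (fun a => (Pi.single a 1 : α → ℝ)) (fun b => fun a => C' a b))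
  have hpe : ∀ a, p (e a) = Pi.single a 1 := by
    intro a
    rw [← hbLe a]
    exact bL.constr_basis ℤ _ (Sum.inl a)
  have hpf : ∀ b, p (bL (Sum.inr b)) = fun a => C' a b := fun b =>
    bL.constr_basis ℤ _ (Sum.inr b)
  have hpx : ∀ x a, p x a = (bL.repr x (Sum.inl a) : ℝ) +
      ∑ b, C' a b * (bL.repr x (Sum.inr b) : ℝ) := by
    intro x a
    have h1 := bL.sum_repr x
    conv_lhs => rw [← h1]
    rw [map_sum, Fintype.sum_sum_type, Pi.add_apply, Finset.sum_apply, Finset.sum_apply]
    congr 1
    · rw [Finset.sum_eq_single a]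
      · rw [map_smul, hbLe, hpe]; simp
      · intro a' _ ha'
        rw [map_smul, hbLe, hpe]
        simp [ha'.symm]
      · intro h; exact absurd (Finset.mem_univ a) h
    · refine Finset.sum_congr rfl fun b _ => ?_
      rw [map_smul, hpf]
      simp [mul_comm]
  refine ⟨(1 - A').det, A'.charpoly, p, hDpos, hqeval, ?_, hpe, ?_, ?_⟩
  · -- characteristic polynomial
    have h1 : M.charpoly = T.charpoly := by
      rw [LinearMap.charpoly_toMatrix]
      have h2 := LinearMap.charpoly_toMatrix M.mulVecLin (Pi.basisFun ℤ N)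
      rw [← h2]
      congr 1
      exact (LinearMap.toMatrix'_toLin' M).symm
    rw [h1, hTblocks, charpoly_fromBlocks_zero₂₁, Matrix.charpoly_one]
    simp
  · -- the averaging identity
    let Φ : (α → ℝ) →ₗ[ℤ] (N → ℝ) :=
      { toFun := fun s => ∑ a, s a • castV (e a : N → ℤ)
        map_add' := by
          intro s t
          simp [add_smul, Finset.sum_add_distrib]
        map_smul' := by
          intro c s
          simp only [Finset.smul_sum, Pi.smul_apply, RingHom.id_apply]
          refine Finset.sum_congr rfl fun a _ => ?_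
          rw [smul_assoc] }
    have hΦ : ∀ s, Φ s = ∑ a, s a • castV (e a : N → ℤ) := fun s => rfl
    have hEq : Φ ∘ₗ p = avgL M m := by
      apply bL.ext
      intro j
      rcases j with a | b
      · rw [LinearMap.comp_apply, hbLe, hpe, avgL_fix M m hm _ (e a).2, hΦ]
        rw [Finset.sum_eq_single a]
        · simp
        · intro a' _ ha'
          simp [ha']
        · intro h; exact absurd (Finset.mem_univ a) h
      · rw [LinearMap.comp_apply, hpf, hΦ]
        -- matrix computation
        set V : Matrix β N ℝ := Matrix.of fun b i => avgL M m (bL (Sum.inr b)) i with hV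
        set E : Matrix α N ℝ := Matrix.of fun a i => castV (e a : N → ℤ) i with hE
        have hVeq : V = BR.transpose * E + AR.transpose * V := by
          ext b i
          have h1 : avgL M m (bL (Sum.inr b)) = avgL M m (M.mulVec (bL (Sum.inr b))) :=
            (avgL_mulVec M m hM _).symm
          have h2 : V b i = avgL M m (bL (Sum.inr b)) i := rfl
          rw [h2, h1, hMf, map_add, map_sum, map_sum, Pi.add_apply, Finset.sum_apply,
            Finset.sum_apply, Matrix.add_apply, Matrix.mul_apply, Matrix.mul_apply]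
          congr 1
          · refine Finset.sum_congr rfl fun a _ => ?_
            rw [map_smul, hbLe, avgL_fix M m hm _ (e a).2]
            simp [hBR, hE]
          · refine Finset.sum_congr rfl fun b' _ => ?_
            rw [map_smul]
            simp [hAR, hV]
        have hVsol : (1 - AR).transpose * V = BR.transpose * E := by
          rw [Matrix.transpose_sub, Matrix.transpose_one, Matrix.sub_mul, Matrix.one_mul,
            sub_eq_iff_eq_add]
          exact hVeq
        have hV2 : V = C'.transpose * E := by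
          have hu : IsUnit (1 - AR).transpose.det := by
            rw [Matrix.det_transpose]; exact hdetR0.isUnit
          rw [hC', Matrix.transpose_mul, Matrix.transpose_nonsing_inv, Matrix.mul_assoc, ← hVsol,
            ← Matrix.mul_assoc, Matrix.nonsing_inv_mul _ hu, Matrix.one_mul]
        funext i
        have h3 : V b i = avgL M m (bL (Sum.inr b)) i := rfl
        rw [← h3, hV2, Matrix.mul_apply, Finset.sum_apply]
        refine Finset.sum_congr rfl fun a _ => ?_
        simp [hE]
    intro x
    exact (hΦ (p x)).symm.trans (LinearMap.congr_fun hEq x)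
  · -- integrality
    intro x
    set U : Matrix α α ℤ := Matrix.of fun a j => bL.repr (x j) (Sum.inl a) with hU
    set Cm : Matrix β α ℤ := Matrix.of fun b j => bL.repr (x j) (Sum.inr b) with hCm
    refine ⟨(fromBlocks (1 - A') Cm (-B) U).det, ?_⟩
    have hinv : Invertible (1 - AR) := Matrix.invertibleOfIsUnitDet _ hdetR0.isUnit
    have h1 := Matrix.det_fromBlocks₁₁ (1 - AR) (Cm.map (Int.castRingHom ℝ)) (-BR)
      (U.map (Int.castRingHom ℝ))
    have h2 : ((fromBlocks (1 - A') Cm (-B) U).det : ℝ) =
        (fromBlocks (1 - AR) (Cm.map (Int.castRingHom ℝ)) (-BR) (U.map (Int.castRingHom ℝ))).det := by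
      have h3 := RingHom.map_det (Int.castRingHom ℝ) (fromBlocks (1 - A') Cm (-B) U)
      have h4 : (Int.castRingHom ℝ).mapMatrix (fromBlocks (1 - A') Cm (-B) U) =
        fromBlocks (1 - AR) (Cm.map (Int.castRingHom ℝ)) (-BR) (U.map (Int.castRingHom ℝ)) := by
        ext i j
        rcases i with i | i <;> rcases j with j | j <;>
          simp [hAR, hBR, Matrix.map_apply, Matrix.one_apply]
      rw [h4] at h3
      exact h3
    rw [h2, h1, hdetR]
    congr 1
    rw [← Matrix.det_transpose]
    congr 1
    rw [Matrix.invOf_eq_nonsing_inv, Matrix.neg_mul, ← hC', Matrix.neg_mul, sub_neg_eq_add]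
    ext a j
    rw [Matrix.transpose_apply, Matrix.of_apply, hpx, Matrix.add_apply, Matrix.mul_apply]
    simp [hU, hCm]

end Pool.Agent.H19
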