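import Mathlib

set_option autoImplicit false

/-!
The volume of the open standard simplex in `Fin d → ℝ` is `1 / d!`.
-/

namespace Pool.Agent.H19

open MeasureTheory Set

/-- The open standard simplex. -/
def openStd (ι : Type) [Fintype ι] : Set (ι → ℝ) := {y | (∀ i, 0 < y i) ∧ ∑ i, y i < 1}

/-- Coordinatewise sign change. -/
def signMap {ι : Type} (s : ι → ℤˣ) (x : ι → ℝ) : ι → ℝ := fun i => (((s i : ℤˣ) : ℤ) : ℝ) * x i

lemma measurableSet_openStd (ι : Type) [Fintype ι] : MeasurableSet (openStd ι) := by
  have h1 : MeasurableSet {y : ι → ℝ | ∀ i, 0 < y i} := by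
    have : {y : ι → ℝ | ∀ i, 0 < y i} = ⋂ i, {y | 0 < y i} := by ext; simp
    rw [this]
    exact MeasurableSet.iInter fun i => measurableSet_lt measurable_const (measurable_pi_apply i)
  have h2 : MeasurableSet {y : ι → ℝ | ∑ i, y i < 1} :=
    measurableSet_lt (Finset.measurable_sum _ fun i _ => measurable_pi_apply i) measurable_const
  exact h1.inter h2

lemma measurePreserving_signMap {ι : Type} [Fintype ι] (s : ι → ℤˣ) :
    MeasurePreserving (signMap s) (volume : Measure (ι → ℝ)) volume := by
  have : ∀ i, MeasurePreserving (fun x : ℝ => (((s i : ℤˣ) : ℤ) : ℝ) * x) volume volume := by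
    intro i
    rcases Int.units_eq_one_or (s i) with h | h
    · have h1 : (fun x : ℝ => (((s i : ℤˣ) : ℤ) : ℝ) * x) = id := by
        funext x; simp [h]
      rw [h1]; exact MeasurePreserving.id (volume : Measure ℝ)
    · simpa [h] using Measure.measurePreserving_neg (volume : Measure ℝ)
  exact volume_preserving_pi this

lemma volume_openStd (ι : Type) [Fintype ι] :
    volume.real (openStd ι) = 1 / (Fintype.card ι).factorial := by
  classical
  -- the cross polytope
  set Q : Set (ι → ℝ) := {x | ∑ i, |x i| ^ (1 : ℝ) < 1} with hQ
  have hvol : volume Q = ENNReal.ofReal ((2 : ℝ) ^ Fintype.card ι / (Fintype.card ι).factorial) := by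
    rw [hQ, volume_sum_rpow_lt_one ι (le_refl (1 : ℝ))]
    congr 1
    have : Real.Gamma ((Fintype.card ι : ℝ) / 1 + 1) = (Fintype.card ι).factorial := by
      rw [div_one]; exact Real.Gamma_nat_eq_factorial _
    rw [this]
    have h2 : Real.Gamma (1 / 1 + 1) = 1 := by
      norm_num
    rw [h2, mul_one]
  set Q' : Set (ι → ℝ) := {x | (∀ i, x i ≠ 0) ∧ ∑ i, |x i| < 1} with hQ'
  have hsub : Q' ⊆ Q := by
    intro x hx
    simp only [hQ, mem_ofPred_eq, Real.rpow_one]
    exact hx.2
  have hdiff : volume (Q \ Q') = 0 := by
    have : Q \ Q' ⊆ ⋃ i, {x : ι → ℝ | x i = 0} := by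
      intro x hx
      by_contra hcon
      apply hx.2
      simp only [mem_iUnion, mem_ofPred_eq, not_exists] at hcon
      refine ⟨hcon, ?_⟩
      have := hx.1
      simpa only [hQ, mem_ofPred_eq, Real.rpow_one] using this
    refine measure_mono_null this ?_
    rw [measure_iUnion_null_iff]
    intro i
    have := Measure.pi_hyperplane (fun _ : ι => (volume : Measure ℝ)) i 0
    simpa [volume_pi] using this
  have hQQ' : volume Q = volume Q' := by
    apply le_antisymm
    · calc volume Q ≤ volume (Q' ∪ (Q \ Q')) := measure_mono (by intro x hx; by_cases h : x ∈ Q'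
                                                                 · exact Or.inl h
                                                                 · exact Or.inr ⟨hx, h⟩)
        _ ≤ volume Q' + volume (Q \ Q') := measure_union_le _ _
        _ = volume Q' := by rw [hdiff, add_zero]
    · exact measure_mono hsub
  have hcover : Q' = ⋃ s : ι → ℤˣ, signMap s ⁻¹' openStd ι := by
    ext x
    simp only [mem_iUnion, mem_preimage]
    constructor
    · rintro ⟨h0, h1⟩
      refine ⟨fun i => if 0 < x i then 1 else -1, ?_, ?_⟩
      · intro i
        by_cases hi : 0 < x i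
        · simp [signMap, hi]
        · have : x i < 0 := lt_of_le_of_ne (not_lt.mp hi) (h0 i)
          simp only [signMap, hi, if_false]
          push_cast
          linarith
      · have : ∀ i, signMap (fun i => if 0 < x i then (1 : ℤˣ) else -1) x i = |x i| := by
          intro i
          by_cases hi : 0 < x i
          · simp [signMap, hi, abs_of_pos hi]
          · have h' : x i < 0 := lt_of_le_of_ne (not_lt.mp hi) (h0 i)
            simp [signMap, hi, abs_of_neg h']
        simp_rw [this]
        exact h1
    · rintro ⟨s, hs1, hs2⟩
      have hpos : ∀ i, 0 < (((s i : ℤˣ) : ℤ) : ℝ) * x i := hs1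
      have habs : ∀ i, |x i| = signMap s x i := by
        intro i
        have := hpos i
        rcases Int.units_eq_one_or (s i) with h | h
        · simp only [h, Units.val_one, Int.cast_one, one_mul] at this
          simp [signMap, h, abs_of_pos this]
        · simp only [h, Units.val_neg, Units.val_one, Int.cast_neg, Int.cast_one, neg_mul,
            one_mul] at this
          have h' : x i < 0 := by linarith
          simp [signMap, h, abs_of_neg h']
      refine ⟨?_, ?_⟩
      · intro i hi
        have := hpos i
        rw [hi, mul_zero] at this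
        exact lt_irrefl _ this
      · simp_rw [habs]
        exact hs2
  have hdisj : Pairwise (Function.onFun Disjoint fun s : ι → ℤˣ => signMap s ⁻¹' openStd ι) := by
    intro s t hst
    rw [Function.onFun, Set.disjoint_left]
    rintro x ⟨hs, _⟩ ⟨ht, _⟩
    apply hst
    funext i
    have h1 : 0 < (((s i : ℤˣ) : ℤ) : ℝ) * x i := hs i
    have h2 : 0 < (((t i : ℤˣ) : ℤ) : ℝ) * x i := ht i
    rcases Int.units_eq_one_or (s i) with h | h <;> rcases Int.units_eq_one_or (t i) with h' | h'
    · rw [h, h']
    · exfalso
      simp only [h, h', Units.val_one, Int.cast_one, one_mul, Units.val_neg, Int.cast_neg,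
        neg_mul] at h1 h2
      linarith
    · exfalso
      simp only [h, h', Units.val_one, Int.cast_one, one_mul, Units.val_neg, Int.cast_neg,
        neg_mul] at h1 h2
      linarith
    · rw [h, h']
  have hmeas : ∀ s : ι → ℤˣ, MeasurableSet (signMap s ⁻¹' openStd ι) := fun s =>
    (measurePreserving_signMap s).measurable (measurableSet_openStd ι)
  have hsum : volume Q' = (2 : ENNReal) ^ Fintype.card ι * volume (openStd ι) := by
    rw [hcover, measure_iUnion hdisj hmeas, tsum_fintype]
    simp_rw [(measurePreserving_signMap _).measure_preimage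
      (measurableSet_openStd ι).nullMeasurableSet]
    rw [Finset.sum_const, nsmul_eq_mul]
    congr 1
    simp
  have hfin : (2 : ℝ) ^ Fintype.card ι * volume.real (openStd ι)
      = (2 : ℝ) ^ Fintype.card ι / (Fintype.card ι).factorial := by
    have := congrArg ENNReal.toReal (hsum.symm.trans (hQQ'.symm.trans hvol))
    rw [ENNReal.toReal_mul, ENNReal.toReal_pow, ENNReal.toReal_ofReal (by positivity)] at this
    simpa [Measure.real] using this
  have h2 : (2 : ℝ) ^ Fintype.card ι ≠ 0 := by positivity
  field_simp at hfin ⊢
  linarith

end Pool.Agent.H19
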