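import Mathlib
import Pool.Agent.helper19.SimplexVolume

set_option autoImplicit false
set_option linter.unusedSectionVars false

/-!
The volume of the convex hull of finitely many points of `κ → ℝ` as a finite sum of determinants
(regular triangulation by a generic lifting).
-/

namespace Pool.Agent.H19

open MeasureTheory Set

variable {ι : Type} [Fintype ι] [DecidableEq ι] {κ : Type} [Fintype κ] [DecidableEq κ]

/-- Homogenisation of a point. -/
def hom (x : κ → ℝ) : κ ⊕ Unit → ℝ := Sum.elim x (fun _ => 1)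

@[simp] lemma hom_inl (x : κ → ℝ) (i : κ) : hom x (Sum.inl i) = x i := rfl
@[simp] lemma hom_inr (x : κ → ℝ) (i : Unit) : hom x (Sum.inr i) = 1 := rfl

lemma sum_hom_iff (p : ι → (κ → ℝ)) (w : ι → ℝ) (x : κ → ℝ) :
    ∑ v, w v • hom (p v) = hom x ↔ (∑ v, w v • p v = x ∧ ∑ v, w v = 1) := by
  constructor
  · intro h
    constructor
    · funext i
      have := congrFun h (Sum.inl i)
      simpa [Finset.sum_apply] using this
    · have := congrFun h (Sum.inr ())
      simpa [Finset.sum_apply] using this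
  · rintro ⟨h1, h2⟩
    funext i
    rcases i with i | i
    · have := congrFun h1 i
      simpa [Finset.sum_apply] using this
    · simpa [Finset.sum_apply] using h2

lemma mem_hull_iff (p : ι → (κ → ℝ)) (x : κ → ℝ) :
    x ∈ convexHull ℝ (range p) ↔
      ∃ w : ι → ℝ, (∀ v, 0 ≤ w v) ∧ ∑ v, w v • hom (p v) = hom x := by
  constructor
  · intro hx
    have hconv : Convex ℝ {x : κ → ℝ | ∃ w : ι → ℝ, (∀ v, 0 ≤ w v) ∧
        ∑ v, w v • hom (p v) = hom x} := by
      intro a ha b hb s t hs ht hst
      obtain ⟨wa, ha0, ha1⟩ := ha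
      obtain ⟨wb, hb0, hb1⟩ := hb
      refine ⟨fun v => s * wa v + t * wb v, fun v => by
        have := ha0 v; have := hb0 v; positivity, ?_⟩
      rw [sum_hom_iff] at ha1 hb1 ⊢
      constructor
      · rw [← ha1.1, ← hb1.1, Finset.smul_sum, Finset.smul_sum, ← Finset.sum_add_distrib]
        refine Finset.sum_congr rfl fun v _ => ?_
        rw [add_smul, mul_smul, mul_smul]
      · rw [Finset.sum_add_distrib, ← Finset.mul_sum, ← Finset.mul_sum, ha1.2, hb1.2]
        simpa using hst
    refine convexHull_min ?_ hconv hx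
    rintro _ ⟨v, rfl⟩
    refine ⟨Pi.single v 1, fun u => ?_, ?_⟩
    · by_cases h : u = v
      · subst h; simp
      · simp [h]
    · rw [Finset.sum_eq_single v]
      · simp
      · intro b _ hb; simp [hb]
      · intro h; exact absurd (Finset.mem_univ v) h
  · rintro ⟨w, h0, h1⟩
    rw [sum_hom_iff] at h1
    rw [← h1.1]
    exact (convex_convexHull ℝ _).sum_mem (fun v _ => h0 v) h1.2
      (fun v _ => subset_convexHull ℝ _ ⟨v, rfl⟩)

/-- A generic lifting. -/
lemma exists_generic (h : ι → (κ ⊕ Unit → ℝ)) :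
    ∃ ω : ι → ℝ, ∀ B : Finset ι, LinearIndependent ℝ (fun v : B => h v) →
      ∀ u : ι, u ∉ B → ∀ c : ι → ℝ, h u = ∑ v ∈ B, c v • h v → ω u ≠ ∑ v ∈ B, c v * ω v := by
  classical
  -- for each (B, u) choose a functional
  let bad : Finset ι × ι → (ι → ℝ) → Prop := fun q c => h q.2 = ∑ v ∈ q.1, c v • h v
  let c₀ : Finset ι × ι → (ι → ℝ) := fun q => if hq : ∃ c, bad q c then hq.choose else 0
  let φ : Finset ι × ι → ((ι → ℝ) →ₗ[ℝ] ℝ) := fun q =>
    LinearMap.proj q.2 - ∑ v ∈ q.1, (c₀ q v) • (LinearMap.proj v : (ι → ℝ) →ₗ[ℝ] ℝ)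
  let I : Finset (Finset ι × ι) := Finset.univ.filter fun q => q.2 ∉ q.1
  let S : Finset (Subspace ℝ (ι → ℝ)) := I.image fun q => LinearMap.ker (φ q)
  have htop : (⊤ : Subspace ℝ (ι → ℝ)) ∉ S := by
    intro hmem
    obtain ⟨q, hq, hqq⟩ := Finset.mem_image.mp hmem
    have hq2 : q.2 ∉ q.1 := (Finset.mem_filter.mp hq).2
    have h1 : (Pi.single q.2 1 : ι → ℝ) ∈ LinearMap.ker (φ q) := by rw [hqq]; trivial
    have h2 : φ q (Pi.single q.2 1) = 1 := by
      simp only [φ, LinearMap.sub_apply, LinearMap.coe_proj, Function.eval, Pi.single_eq_same,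
        LinearMap.sum_apply, LinearMap.smul_apply, smul_eq_mul]
      rw [Finset.sum_eq_zero, sub_zero]
      intro v hv
      have : v ≠ q.2 := fun h' => hq2 (h' ▸ hv)
      simp [this]
    rw [LinearMap.mem_ker, h2] at h1
    exact one_ne_zero h1
  have := Subspace.biUnion_ne_univ_of_top_notMem htop
  rw [Set.ne_univ_iff_exists_notMem] at this
  obtain ⟨ω, hω⟩ := this
  refine ⟨ω, ?_⟩
  intro B hB u hu c hc heq
  apply hω
  have hex : ∃ c, bad (B, u) c := ⟨c, hc⟩
  have hc₀ : bad (B, u) (c₀ (B, u)) := by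
    simp only [c₀, dif_pos hex]
    exact hex.choose_spec
  -- uniqueness of coefficients on B
  have hcc : ∀ v ∈ B, c v = c₀ (B, u) v := by
    have hz : ∑ v : B, (c v - c₀ (B, u) v) • h v = 0 := by
      rw [Finset.sum_coe_sort B (fun v => (c v - c₀ (B, u) v) • h v)]
      simp_rw [sub_smul]
      rw [Finset.sum_sub_distrib, ← hc, ← (show h u = _ from hc₀), sub_self]
    have := (Fintype.linearIndependent_iff.mp hB) (fun v => c v - c₀ (B, u) v) hz
    intro v hv
    have := this ⟨v, hv⟩
    simpa [sub_eq_zero] using this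
  simp only [mem_iUnion]
  refine ⟨LinearMap.ker (φ (B, u)), ?_, ?_⟩
  · apply Finset.mem_image_of_mem
    exact Finset.mem_filter.mpr ⟨Finset.mem_univ _, hu⟩
  · rw [SetLike.mem_coe, LinearMap.mem_ker]
    simp only [φ, LinearMap.sub_apply, LinearMap.coe_proj, Function.eval,
        LinearMap.sum_apply, LinearMap.smul_apply, smul_eq_mul]
    rw [heq, sub_eq_zero]
    exact Finset.sum_congr rfl fun v hv => by rw [hcc v hv]

/-- The good (simplicial) cells of a lifting. -/
def Good (h : ι → (κ ⊕ Unit → ℝ)) (ω : ι → ℝ) (B : Finset ι) : Prop :=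
  B.card = Fintype.card κ + 1 ∧ LinearIndependent ℝ (fun v : B => h v) ∧
    ∃ ℓ : (κ ⊕ Unit → ℝ) →ₗ[ℝ] ℝ, (∀ v ∈ B, ℓ (h v) = ω v) ∧ (∀ v, v ∉ B → ℓ (h v) < ω v)

/-- Open cell. -/
def cell (h : ι → (κ ⊕ Unit → ℝ)) (B : Finset ι) : Set (κ → ℝ) :=
  {x | ∃ w : ι → ℝ, (∀ v ∈ B, 0 < w v) ∧ (∀ v, v ∉ B → w v = 0) ∧ ∑ v, w v • h v = hom x}

lemma cell_disjoint (h : ι → (κ ⊕ Unit → ℝ)) (ω : ι → ℝ) {B B' : Finset ι}
    (hB : Good h ω B) (hB' : Good h ω B') (hne : B ≠ B') :
    Disjoint (cell h B) (cell h B') := by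
  rw [Set.disjoint_left]
  rintro x ⟨w, hw0, hw1, hw2⟩ ⟨w', hw0', hw1', hw2'⟩
  -- key comparison
  have key : ∀ (C C' : Finset ι) (hC : Good h ω C) (w w' : ι → ℝ)
      (_ : ∀ v, v ∉ C → w v = 0) (_ : ∑ v, w v • h v = hom x)
      (_ : ∀ v, 0 ≤ w' v) (_ : ∑ v, w' v • h v = hom x),
      ∑ v, w v * ω v ≤ ∑ v, w' v * ω v ∧
      ((∑ v, w v * ω v = ∑ v, w' v * ω v) → ∀ v, 0 < w' v → v ∈ C) := by
    intro C C' hC w w' h1 h2 h3 h4
    obtain ⟨_, _, ℓ, hℓ1, hℓ2⟩ := hC
    have e1 : ℓ (hom x) = ∑ v, w v * ω v := by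
      rw [← h2, map_sum]
      refine Finset.sum_congr rfl fun v _ => ?_
      rw [map_smul, smul_eq_mul]
      by_cases hv : v ∈ C
      · rw [hℓ1 v hv]
      · rw [h1 v hv, zero_mul, zero_mul]
    have e2 : ℓ (hom x) = ∑ v, w' v * ℓ (h v) := by
      rw [← h4, map_sum]
      refine Finset.sum_congr rfl fun v _ => ?_
      rw [map_smul, smul_eq_mul]
    have hle : ∀ v, ℓ (h v) ≤ ω v := by
      intro v
      by_cases hv : v ∈ C
      · rw [hℓ1 v hv]
      · exact (hℓ2 v hv).le
    constructor
    · rw [← e1, e2]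
      exact Finset.sum_le_sum fun v _ => mul_le_mul_of_nonneg_left (hle v) (h3 v)
    · intro heq v hv
      by_contra hvC
      have : ∑ v, w' v * ℓ (h v) < ∑ v, w' v * ω v := by
        apply Finset.sum_lt_sum
        · intro u _; exact mul_le_mul_of_nonneg_left (hle u) (h3 u)
        · exact ⟨v, Finset.mem_univ v, mul_lt_mul_of_pos_left (hℓ2 v hvC) hv⟩
      rw [← e2, e1, heq] at this
      exact lt_irrefl _ this
  have hnn : ∀ v, 0 ≤ w v := fun v => by
    by_cases hv : v ∈ B
    · exact (hw0 v hv).le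
    · rw [hw1 v hv]
  have hnn' : ∀ v, 0 ≤ w' v := fun v => by
    by_cases hv : v ∈ B'
    · exact (hw0' v hv).le
    · rw [hw1' v hv]
  have k1 := key B B' hB w w' hw1 hw2 hnn' hw2'
  have k2 := key B' B hB' w' w hw1' hw2' hnn hw2
  have heq := le_antisymm k1.1 k2.1
  have hsub : B' ⊆ B := fun v hv => k1.2 heq v (hw0' v hv)
  have : B' = B := Finset.eq_of_subset_of_card_le hsub (by rw [hB.1, hB'.1])
  exact hne this.symm

lemma exists_good (p : ι → (κ → ℝ)) (ω : ι → ℝ)
    (hω : ∀ B : Finset ι, LinearIndependent ℝ (fun v : B => hom (p v)) →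
      ∀ u : ι, u ∉ B → ∀ c : ι → ℝ, hom (p u) = ∑ v ∈ B, c v • hom (p v) →
        ω u ≠ ∑ v ∈ B, c v * ω v)
    (x : κ → ℝ) (hx : x ∈ convexHull ℝ (range p))
    (hx' : ∀ C : Finset ι, C.card ≤ Fintype.card κ →
      hom x ∉ Submodule.span ℝ ((fun v => hom (p v)) '' (C : Set ι))) :
    ∃ B, Good (fun v => hom (p v)) ω B ∧ x ∈ cell (fun v => hom (p v)) B := by
  classical
  set h : ι → (κ ⊕ Unit → ℝ) := fun v => hom (p v) with hh
  set Λ : Set (ι → ℝ) := {w | (∀ v, 0 ≤ w v) ∧ ∑ v, w v • h v = hom x} with hΛ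
  set cost : (ι → ℝ) → ℝ := fun w => ∑ v, w v * ω v with hcost
  have hne : Λ.Nonempty := (mem_hull_iff p x).mp hx
  have hsum1 : ∀ w ∈ Λ, ∑ v, w v = 1 := fun w hw => ((sum_hom_iff p w x).mp hw.2).2
  have hcl : IsClosed Λ := by
    have h1 : IsClosed {w : ι → ℝ | ∀ v, 0 ≤ w v} := by
      have : {w : ι → ℝ | ∀ v, 0 ≤ w v} = ⋂ v, {w | 0 ≤ w v} := by ext; simp
      rw [this]
      exact isClosed_iInter fun v => isClosed_le continuous_const (continuous_apply v)
    have h2 : IsClosed {w : ι → ℝ | ∑ v, w v • h v = hom x} := by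
      apply isClosed_eq _ continuous_const
      exact continuous_finsetSum _ fun v _ => (continuous_apply v).smul continuous_const
    exact h1.inter h2
  have hcpt : IsCompact Λ := by
    refine (isCompact_Icc (a := (0 : ι → ℝ)) (b := 1)).of_isClosed_subset hcl ?_
    intro w hw
    refine ⟨fun v => hw.1 v, fun v => ?_⟩
    rw [Pi.one_apply, ← hsum1 w hw]
    exact Finset.single_le_sum (fun u _ => hw.1 u) (Finset.mem_univ v)
  have hcont : Continuous cost :=
    continuous_finsetSum _ fun v _ => (continuous_apply v).mul continuous_const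
  obtain ⟨w₀, hw₀, hmin₀⟩ := hcpt.exists_isMinOn hne hcont.continuousOn
  -- optimal solutions with minimal support
  let supp : (ι → ℝ) → Finset ι := fun w => Finset.univ.filter fun v => w v ≠ 0
  have hex : ∃ k : ℕ, ∃ w ∈ Λ, (∀ w' ∈ Λ, cost w ≤ cost w') ∧ (supp w).card = k :=
    ⟨_, w₀, hw₀, fun w' hw' => hmin₀ hw', rfl⟩
  obtain ⟨w, hwΛ, hwopt, hwcard⟩ := Nat.find_spec hex
  have hwmin : ∀ w' ∈ Λ, (∀ w'' ∈ Λ, cost w' ≤ cost w'') → (supp w).card ≤ (supp w').card := by
    intro w' hw' hopt'
    rw [hwcard]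
    exact Nat.find_min' hex ⟨w', hw', hopt', rfl⟩
  set B : Finset ι := supp w with hBdef
  have hBpos : ∀ v ∈ B, 0 < w v := fun v hv =>
    lt_of_le_of_ne (hwΛ.1 v) (Ne.symm (Finset.mem_filter.mp hv).2)
  have hBzero : ∀ v, v ∉ B → w v = 0 := by
    intro v hv
    by_contra h0
    exact hv (Finset.mem_filter.mpr ⟨Finset.mem_univ v, h0⟩)
  have hli : LinearIndependent ℝ (fun v : B => h v) := by
    by_contra hnli
    rw [Fintype.not_linearIndependent_iff] at hnli
    obtain ⟨g, hg0, ⟨b, hgb⟩⟩ := hnli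
    -- a dependence with nonpositive cost
    obtain ⟨δ, hδB, hδ0, hδne, hδc⟩ : ∃ δ : ι → ℝ, (∀ v, v ∉ B → δ v = 0) ∧
        ∑ v, δ v • h v = 0 ∧ (∃ v, δ v ≠ 0) ∧ cost δ ≤ 0 := by
      let δ₀ : ι → ℝ := fun v => if hv : v ∈ B then g ⟨v, hv⟩ else 0
      have e1 : ∀ v, v ∉ B → δ₀ v = 0 := fun v hv => by simp [δ₀, hv]
      have e2 : ∑ v, δ₀ v • h v = 0 := by
        have a1 : ∑ v, δ₀ v • h v = ∑ v ∈ B, δ₀ v • h v :=
          (Finset.sum_subset (Finset.subset_univ B) (fun v _ hv => by
            rw [e1 v hv, zero_smul])).symm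
        rw [a1, ← hg0, ← Finset.sum_coe_sort B (fun v => δ₀ v • h v)]
        refine Finset.sum_congr rfl fun v _ => ?_
        simp [δ₀]
      have e3 : ∃ v, δ₀ v ≠ 0 := ⟨b, by simpa [δ₀] using hgb⟩
      by_cases hc : cost δ₀ ≤ 0
      · exact ⟨δ₀, e1, e2, e3, hc⟩
      · refine ⟨fun v => -δ₀ v, fun v hv => by simp [e1 v hv], ?_, ?_, ?_⟩
        · simp_rw [neg_smul]
          rw [Finset.sum_neg_distrib, e2, neg_zero]
        · obtain ⟨v, hv⟩ := e3
          exact ⟨v, by simpa using hv⟩
        · have : cost (fun v => -δ₀ v) = - cost δ₀ := by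
            simp only [hcost, neg_mul, Finset.sum_neg_distrib]
          rw [this]
          push Not at hc
          linarith
    have hδsum : ∑ v, δ v = 0 := by
      have := congrFun hδ0 (Sum.inr ())
      simpa [Finset.sum_apply, hh] using this
    have hneg : (Finset.univ.filter fun v => δ v < 0).Nonempty := by
      by_contra hemp
      rw [Finset.not_nonempty_iff_eq_empty, Finset.filter_eq_empty_iff] at hemp
      have hnn : ∀ v ∈ Finset.univ, 0 ≤ δ v := fun v hv => not_lt.mp (hemp hv)
      have := (Finset.sum_eq_zero_iff_of_nonneg hnn).mp hδsum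
      obtain ⟨v, hv⟩ := hδne
      exact hv (this v (Finset.mem_univ v))
    obtain ⟨v₀, hv₀, hv₀min⟩ := Finset.exists_min_image _ (fun v => w v / (-δ v)) hneg
    have hv₀neg : δ v₀ < 0 := (Finset.mem_filter.mp hv₀).2
    set ε : ℝ := w v₀ / (-δ v₀) with hε
    have hε0 : 0 ≤ ε := div_nonneg (hwΛ.1 v₀) (by linarith)
    set w' : ι → ℝ := fun v => w v + ε * δ v with hw'
    have hw'Λ : w' ∈ Λ := by
      constructor
      · intro v
        by_cases hv : δ v < 0
        · have := hv₀min v (Finset.mem_filter.mpr ⟨Finset.mem_univ v, hv⟩)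
          have h3 : ε * (-δ v) ≤ w v := by
            rw [← le_div_iff₀ (by linarith : (0 : ℝ) < -δ v)]
            exact this
          simp only [hw']
          linarith
        · have h1 := hwΛ.1 v
          have h2 : 0 ≤ ε * δ v := mul_nonneg hε0 (not_lt.mp hv)
          simp only [hw']
          linarith
      · simp only [hw', add_smul, mul_smul, Finset.sum_add_distrib, ← Finset.smul_sum, hδ0,
          smul_zero, add_zero]
        exact hwΛ.2
    have hcost' : cost w' ≤ cost w := by
      have : cost w' = cost w + ε * cost δ := by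
        simp only [hcost, hw', add_mul, Finset.sum_add_distrib, Finset.mul_sum, mul_assoc]
      rw [this]
      have := mul_nonpos_of_nonneg_of_nonpos hε0 hδc
      linarith
    have hcard := hwmin w' hw'Λ (fun w'' hw'' => hcost'.trans (hwopt w'' hw''))
    have hv₀B : v₀ ∈ B := by
      by_contra hv
      rw [hδB v₀ hv] at hv₀neg
      exact lt_irrefl _ hv₀neg
    have hlt : (supp w').card < B.card := by
      apply Finset.card_lt_card
      rw [Finset.ssubset_iff_of_subset]
      · refine ⟨v₀, hv₀B, ?_⟩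
        intro hcon
        apply (Finset.mem_filter.mp hcon).2
        simp only [hw', hε]
        have : δ v₀ ≠ 0 := hv₀neg.ne
        field_simp
        ring
      · intro v hv
        by_contra hvB
        apply (Finset.mem_filter.mp hv).2
        simp only [hw']
        rw [hBzero v hvB, hδB v hvB]
        ring
    exact absurd hcard (not_le.mpr hlt)
  have hcardle : B.card ≤ Fintype.card κ + 1 := by
    have := hli.fintype_card_le_finrank
    simpa using this
  have hcardge : Fintype.card κ + 1 ≤ B.card := by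
    by_contra hlt
    push Not at hlt
    apply hx' B (by omega)
    rw [← hwΛ.2]
    refine Submodule.sum_mem _ fun v _ => ?_
    by_cases hv : v ∈ B
    · exact Submodule.smul_mem _ _ (Submodule.subset_span ⟨v, hv, rfl⟩)
    · rw [hBzero v hv, zero_smul]; exact Submodule.zero_mem _
  have hcard : B.card = Fintype.card κ + 1 := le_antisymm hcardle hcardge
  have hBne : Nonempty B := by
    have : 0 < B.card := by omega
    obtain ⟨b, hb⟩ := Finset.card_pos.mp this
    exact ⟨⟨b, hb⟩⟩
  let bas := basisOfLinearIndependentOfCardEqFinrank hli (by simp [hcard])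
  have hbas : ∀ v : B, bas v = h v := fun v => by
    simp [bas]
  let ℓ : (κ ⊕ Unit → ℝ) →ₗ[ℝ] ℝ := bas.constr ℝ (fun v : B => ω v)
  have hℓ : ∀ v ∈ B, ℓ (h v) = ω v := by
    intro v hv
    have := bas.constr_basis ℝ (fun v : B => ω v) ⟨v, hv⟩
    rw [hbas] at this
    exact this
  refine ⟨B, ⟨hcard, hli, ℓ, hℓ, ?_⟩, ⟨w, hBpos, hBzero, hwΛ.2⟩⟩
  intro u hu
  -- coordinates of h u
  let c : ι → ℝ := fun v => if hv : v ∈ B then bas.repr (h u) ⟨v, hv⟩ else 0
  have hc : h u = ∑ v ∈ B, c v • h v := by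
    conv_lhs => rw [← bas.sum_repr (h u)]
    rw [← Finset.sum_coe_sort B (fun v => c v • h v)]
    refine Finset.sum_congr rfl fun v _ => ?_
    rw [hbas]
    simp [c]
  have hℓu : ℓ (h u) = ∑ v ∈ B, c v * ω v := by
    rw [hc, map_sum]
    refine Finset.sum_congr rfl fun v hv => ?_
    rw [map_smul, smul_eq_mul, hℓ v hv]
  have hne' : ω u ≠ ∑ v ∈ B, c v * ω v := hω B hli u hu c hc
  rw [hℓu]
  refine lt_of_le_of_ne ?_ hne'.symm
  -- exchange argument
  obtain ⟨ε, hε0, hε⟩ : ∃ ε : ℝ, 0 < ε ∧ ∀ v ∈ B, ε * c v ≤ w v := by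
    have hev : ∀ v ∈ B, ∀ᶠ ε : ℝ in nhdsWithin 0 (Ioi 0), ε * c v ≤ w v := by
      intro v hv
      have ht : Filter.Tendsto (fun ε : ℝ => ε * c v) (nhdsWithin 0 (Ioi 0)) (nhds 0) := by
        have : Filter.Tendsto (fun ε : ℝ => ε * c v) (nhds 0) (nhds (0 * c v)) :=
          (continuous_id.mul continuous_const).tendsto 0
        rw [zero_mul] at this
        exact this.mono_left nhdsWithin_le_nhds
      filter_upwards [ht.eventually (gt_mem_nhds (hBpos v hv))] with ε hε using hε.le
    have hall := (Finset.eventually_all B).mpr hev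
    obtain ⟨ε, h1, h2⟩ := (hall.and self_mem_nhdsWithin).exists
    exact ⟨ε, h2, h1⟩
  set w' : ι → ℝ := fun v => w v + ε * (if v = u then 1 else if v ∈ B then - c v else 0) with hw'
  have hsumB : ∀ (f : ι → ℝ), ∑ v, (if v = u then (1 : ℝ) else if v ∈ B then - c v else 0) * f v
      = f u - ∑ v ∈ B, c v * f v := by
    intro f
    have : ∀ v, (if v = u then (1 : ℝ) else if v ∈ B then - c v else 0) * f v
        = (if v = u then f v else 0) + (if v ∈ B then - (c v * f v) else 0) := by
      intro v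
      by_cases h1 : v = u
      · subst h1; simp [hu]
      · by_cases h2 : v ∈ B <;> simp [h1, h2]
    simp_rw [this]
    rw [Finset.sum_add_distrib, Finset.sum_ite_eq' Finset.univ u, if_pos (Finset.mem_univ u),
      ← Finset.sum_filter, Finset.sum_neg_distrib]
    simp [sub_eq_add_neg]
  have hw'Λ : w' ∈ Λ := by
    constructor
    · intro v
      simp only [hw']
      by_cases h1 : v = u
      · subst h1
        have := hwΛ.1 v
        simp only [if_true, mul_one]
        linarith
      · by_cases h2 : v ∈ B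
        · have := hε v h2
          simp only [h1, h2, if_false, if_true]
          linarith
        · have := hwΛ.1 v
          simp only [h1, h2, if_false, mul_zero, add_zero]
          exact this
    · have : ∑ v, (if v = u then (1 : ℝ) else if v ∈ B then - c v else 0) • h v = 0 := by
        funext i
        rw [Finset.sum_apply]
        simp only [Pi.smul_apply, smul_eq_mul, Pi.zero_apply]
        rw [hsumB (fun v => h v i)]
        have := congrFun hc i
        rw [Finset.sum_apply] at this
        simp only [Pi.smul_apply, smul_eq_mul] at this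
        rw [← this, sub_self]
      simp only [hw', add_smul, mul_smul, Finset.sum_add_distrib, ← Finset.smul_sum, this,
          smul_zero, add_zero]
      exact hwΛ.2
  have hc2 := hwopt w' hw'Λ
  have : cost w' = cost w + ε * (ω u - ∑ v ∈ B, c v * ω v) := by
    rw [← hsumB ω]
    simp only [hcost, hw', add_mul, Finset.sum_add_distrib, Finset.mul_sum, mul_assoc]
  rw [this] at hc2
  have h5 : 0 ≤ ε * (ω u - ∑ v ∈ B, c v * ω v) := by linarith
  have h6 := nonneg_of_mul_nonneg_right h5 hε0
  linarith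

/-- The linear part of the homogenisation. -/
def homLin : (κ → ℝ) →ₗ[ℝ] (κ ⊕ Unit → ℝ) where
  toFun x := Sum.elim x (fun _ => 0)
  map_add' x y := by funext i; rcases i with i | i <;> simp
  map_smul' c x := by funext i; rcases i with i | i <;> simp

/-- The homogenisation as an affine map. -/
def homAff : (κ → ℝ) →ᵃ[ℝ] (κ ⊕ Unit → ℝ) where
  toFun := hom
  linear := homLin
  map_vadd' x v := by funext i; rcases i with i | i <;> simp [homLin]

lemma volume_hom_mem (W : Submodule ℝ (κ ⊕ Unit → ℝ)) (hW : W ≠ ⊤) :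
    volume {x : κ → ℝ | hom x ∈ W} = 0 := by
  have hset : {x : κ → ℝ | hom x ∈ W} = ((W.toAffineSubspace.comap homAff :
      AffineSubspace ℝ (κ → ℝ)) : Set (κ → ℝ)) := by
    ext x
    simp [homAff]
  rw [hset]
  apply Measure.addHaar_affineSubspace
  intro htop
  apply hW
  have hall : ∀ x : κ → ℝ, hom x ∈ W := by
    intro x
    have : x ∈ (W.toAffineSubspace.comap homAff : AffineSubspace ℝ (κ → ℝ)) := by
      rw [htop]; trivial
    have h2 : x ∈ {x : κ → ℝ | hom x ∈ W} := by rw [hset]; exact this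
    exact h2
  rw [eq_top_iff]
  intro y _
  have : y = y (Sum.inr ()) • hom (0 : κ → ℝ) + (hom (fun i => y (Sum.inl i)) - hom 0) := by
    funext i
    rcases i with i | i <;> simp
  rw [this]
  exact W.add_mem (W.smul_mem _ (hall _)) (W.sub_mem (hall _) (hall _))

lemma det_hom (q : κ ⊕ Unit → (κ → ℝ)) :
    (Matrix.of fun j i => hom (q j) i).det
      = (Matrix.of fun (i k : κ) => q (Sum.inl i) k - q (Sum.inr ()) k).det := by
  have : (Matrix.of fun j i => hom (q j) i)
      = Matrix.fromBlocks (Matrix.of fun (i k : κ) => q (Sum.inl i) k)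
          (Matrix.of fun (_ : κ) (_ : Unit) => (1 : ℝ))
          (Matrix.of fun (_ : Unit) (k : κ) => q (Sum.inr ()) k) (1 : Matrix Unit Unit ℝ) := by
    ext j i
    rcases j with j | j <;> rcases i with i | i <;> simp
  rw [this, Matrix.det_fromBlocks_one₂₂]
  congr 1
  ext i k
  simp [Matrix.mul_apply]

lemma cell_eq_image (p : ι → (κ → ℝ)) (B : Finset ι) (e : κ ⊕ Unit ≃ B) :
    cell (fun v => hom (p v)) B =
      (fun y : κ → ℝ => Matrix.toLin' (Matrix.of fun (i k : κ) =>
          p (e (Sum.inl i)) k - p (e (Sum.inr ())) k).transpose y + p (e (Sum.inr ()))) ''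
        openStd κ := by
  ext x
  constructor
  · rintro ⟨w, hw0, hw1, hw2⟩
    rw [sum_hom_iff] at hw2
    obtain ⟨h1, h2⟩ := hw2
    have hB : ∀ f : ι → ℝ, ∑ v, w v * f v = ∑ j : κ ⊕ Unit, w (e j) * f (e j) := by
      intro f
      have a1 : ∑ v, w v * f v = ∑ v ∈ B, w v * f v :=
        (Finset.sum_subset (Finset.subset_univ B) (fun v _ hv => by
            rw [hw1 v hv, zero_mul])).symm
      rw [a1, ← Finset.sum_coe_sort B (fun v => w v * f v)]
      exact (Equiv.sum_comp e (fun v : B => w v * f v)).symm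
    have hs1 : ∑ j : κ ⊕ Unit, w (e j) = 1 := by
      rw [← h2]
      have := hB (fun _ => 1)
      simpa using this.symm
    rw [Fintype.sum_sum_type] at hs1
    simp only [Finset.univ_unique, Finset.sum_singleton] at hs1
    have hlast : w (e (Sum.inr ())) = 1 - ∑ i : κ, w (e (Sum.inl i)) := by
      have : w (e (Sum.inr (default : Unit))) = w (e (Sum.inr ())) := rfl
      linarith
    refine ⟨fun i => w (e (Sum.inl i)), ⟨fun i => hw0 _ (e (Sum.inl i)).2, ?_⟩, ?_⟩
    · have := hw0 _ (e (Sum.inr ())).2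
      linarith
    · funext k
      have hx : x k = ∑ j : κ ⊕ Unit, w (e j) * p (e j) k := by
        rw [← hB (fun v => p v k), ← h1, Finset.sum_apply]
        simp
      rw [hx, Fintype.sum_sum_type]
      simp only [Finset.univ_unique, Finset.sum_singleton, Pi.add_apply, Matrix.toLin'_apply,
        Matrix.mulVec, dotProduct, Matrix.transpose_apply, Matrix.of_apply]
      have : w (e (Sum.inr (default : Unit))) = 1 - ∑ i : κ, w (e (Sum.inl i)) := hlast
      rw [this]
      have hd : p (e (Sum.inr (default : Unit))) k = p (e (Sum.inr ())) k := rfl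
      rw [hd]
      have : ∑ i : κ, (p (e (Sum.inl i)) k - p (e (Sum.inr ())) k) * w (e (Sum.inl i))
          = ∑ i : κ, w (e (Sum.inl i)) * p (e (Sum.inl i)) k
            - (∑ i : κ, w (e (Sum.inl i))) * p (e (Sum.inr ())) k := by
        rw [Finset.sum_mul, ← Finset.sum_sub_distrib]
        exact Finset.sum_congr rfl fun i _ => by ring
      rw [this]
      ring
  · rintro ⟨y, ⟨hy0, hy1⟩, rfl⟩
    let w' : κ ⊕ Unit → ℝ := Sum.elim y (fun _ => 1 - ∑ i, y i)
    let w : ι → ℝ := fun v => if hv : v ∈ B then w' (e.symm ⟨v, hv⟩) else 0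
    have hw'pos : ∀ j, 0 < w' j := by
      intro j
      rcases j with j | j
      · exact hy0 j
      · simp only [w', Sum.elim_inr]; linarith
    have hwe : ∀ j, w (e j) = w' j := by
      intro j
      simp [w]
    have hw1 : ∀ v, v ∉ B → w v = 0 := fun v hv => by simp [w, hv]
    have hB : ∀ f : ι → ℝ, ∑ v, w v * f v = ∑ j : κ ⊕ Unit, w' j * f (e j) := by
      intro f
      have a1 : ∑ v, w v * f v = ∑ v ∈ B, w v * f v :=
        (Finset.sum_subset (Finset.subset_univ B) (fun v _ hv => by
            rw [hw1 v hv, zero_mul])).symm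
      rw [a1, ← Finset.sum_coe_sort B (fun v => w v * f v),
        ← Equiv.sum_comp e (fun v : B => w v * f v)]
      exact Finset.sum_congr rfl fun j _ => by rw [hwe]
    refine ⟨w, fun v hv => ?_, hw1, ?_⟩
    · simp only [w, dif_pos hv]
      exact hw'pos _
    · rw [sum_hom_iff]
      constructor
      · funext k
        have := hB (fun v => p v k)
        rw [Finset.sum_apply]
        simp only [Pi.smul_apply, smul_eq_mul]
        rw [this, Fintype.sum_sum_type]
        simp only [Finset.univ_unique, Finset.sum_singleton, Pi.add_apply, Matrix.toLin'_apply,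
          Matrix.mulVec, dotProduct, Matrix.transpose_apply, Matrix.of_apply, w', Sum.elim_inl,
          Sum.elim_inr]
        have hd : p (e (Sum.inr (default : Unit))) k = p (e (Sum.inr ())) k := rfl
        rw [hd]
        have : ∑ i : κ, (p (e (Sum.inl i)) k - p (e (Sum.inr ())) k) * y i
          = ∑ i : κ, y i * p (e (Sum.inl i)) k
            - (∑ i : κ, y i) * p (e (Sum.inr ())) k := by
          rw [Finset.sum_mul, ← Finset.sum_sub_distrib]
          exact Finset.sum_congr rfl fun i _ => by ring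
        rw [this]
        ring
      · have := hB (fun _ => 1)
        simp only [mul_one] at this
        rw [this, Fintype.sum_sum_type]
        simp [w']

lemma volume_cell (p : ι → (κ → ℝ)) (B : Finset ι) (e : κ ⊕ Unit ≃ B) :
    volume.real (cell (fun v => hom (p v)) B) =
      |(Matrix.of fun j i => hom (p (e j)) i).det| / (Fintype.card κ).factorial := by
  rw [cell_eq_image p B e, det_hom (fun j => p (e j))]
  set N : Matrix κ κ ℝ := (Matrix.of fun (i k : κ) =>
          p (e (Sum.inl i)) k - p (e (Sum.inr ())) k) with hN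
  set a := p (e (Sum.inr ()))
  have himg : (fun y : κ → ℝ => Matrix.toLin' N.transpose y + a) '' openStd κ
      = (fun z => z + a) '' (Matrix.toLin' N.transpose '' openStd κ) := by
    rw [Set.image_image]
  rw [himg, Measure.real, Set.image_add_right, measure_preimage_add_right,
    Measure.addHaar_image_linearMap, ENNReal.toReal_mul,
    ENNReal.toReal_ofReal (abs_nonneg _), LinearMap.det_toLin', Matrix.det_transpose]
  have := volume_openStd κ
  rw [Measure.real] at this
  rw [this]
  ring

lemma measurableSet_cell (p : ι → (κ → ℝ)) (ω : ι → ℝ) (B : Finset ι)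
    (hB : Good (fun v => hom (p v)) ω B) :
    MeasurableSet (cell (fun v => hom (p v)) B) := by
  obtain ⟨hcard, hli, -⟩ := hB
  have hBne : Nonempty B := by
    have : 0 < B.card := by omega
    obtain ⟨b, hb⟩ := Finset.card_pos.mp this
    exact ⟨⟨b, hb⟩⟩
  let bas := basisOfLinearIndependentOfCardEqFinrank hli (by simp [hcard])
  have hbas : ∀ v : B, bas v = hom (p v) := fun v => by
    simp [bas]
  have hset : cell (fun v => hom (p v)) B = {x | ∀ v : B, 0 < bas.repr (hom x) v} := by
    ext x
    constructor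
    · rintro ⟨w, hw0, hw1, hw2⟩ v
      have : hom x = ∑ v : B, w v • bas v := by
        rw [← hw2]
        simp_rw [hbas]
        rw [Finset.sum_coe_sort B (fun v => w v • hom (p v))]
        exact (Finset.sum_subset (Finset.subset_univ B) (fun v _ hv => by
            rw [hw1 v hv, zero_smul])).symm
      rw [this, bas.repr_sum_self]
      exact hw0 v v.2
    · intro hx
      refine ⟨fun v => if hv : v ∈ B then bas.repr (hom x) ⟨v, hv⟩ else 0, ?_, ?_, ?_⟩
      · intro v hv
        simp only [dif_pos hv]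
        exact hx ⟨v, hv⟩
      · intro v hv
        simp [hv]
      · conv_rhs => rw [← bas.sum_repr (hom x)]
        simp_rw [hbas]
        rw [← Finset.sum_subset (Finset.subset_univ B) (fun v _ hv => by simp [hv])]
        rw [← Finset.sum_coe_sort B]
        refine Finset.sum_congr rfl fun v _ => ?_
        simp
  rw [hset]
  have : {x : κ → ℝ | ∀ v : B, 0 < bas.repr (hom x) v}
      = ⋂ v : B, {x | 0 < bas.coord v (hom x)} := by
    ext x; simp
  rw [this]
  refine MeasurableSet.iInter fun v => ?_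
  apply measurableSet_lt measurable_const
  have h1 : Continuous (fun x : κ → ℝ => hom x) := by
    apply continuous_pi
    intro i
    rcases i with i | i
    · exact continuous_apply i
    · exact continuous_const
  exact ((LinearMap.continuous_of_finiteDimensional (bas.coord v)).comp h1).measurable

/-- The normalised volume of a convex hull of finitely many points is a sum of absolute values of
determinants of homogenised points. -/
theorem exists_hull_volume (p : ι → (κ → ℝ)) :
    ∃ T : Finset (κ ⊕ Unit → ι),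
      ((Fintype.card κ).factorial : ℝ) * volume.real (convexHull ℝ (range p)) =
        ∑ σ ∈ T, |(Matrix.of fun j i => hom (p (σ j)) i).det| := by
  classical
  set h : ι → (κ ⊕ Unit → ℝ) := fun v => hom (p v) with hh
  obtain ⟨ω, hω⟩ := exists_generic h
  let G : Finset (Finset ι) := Finset.univ.filter fun B => Good h ω B
  have hG : ∀ B, B ∈ G ↔ Good h ω B := fun B => by simp [G]
  have hcardB : ∀ B : Finset ι, Good h ω B → Nonempty (κ ⊕ Unit ≃ B) := by
    intro B hB
    refine ⟨Fintype.equivOfCardEq ?_⟩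
    simp [hB.1]
  let e : ∀ B : G, κ ⊕ Unit ≃ B.1 := fun B => (hcardB B.1 ((hG _).mp B.2)).some
  let f : G → (κ ⊕ Unit → ι) := fun B j => (e B j : ι)
  have hf : Function.Injective f := by
    intro B B' hBB'
    have hr : ∀ B : G, (B.1 : Set ι) = Set.range (f B) := by
      intro B
      ext v
      constructor
      · intro hv
        exact ⟨(e B).symm ⟨v, hv⟩, by simp [f]⟩
      · rintro ⟨j, rfl⟩
        exact (e B j).2
    apply Subtype.ext
    apply Finset.coe_injective
    rw [hr B, hr B', hBB']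
  refine ⟨Finset.univ.image f, ?_⟩
  rw [Finset.sum_image (fun x _ y _ hxy => hf hxy)]
  -- volume of the union of the cells
  have hcellsub : ∀ B, cell h B ⊆ convexHull ℝ (range p) := by
    rintro B x ⟨w, hw0, hw1, hw2⟩
    rw [mem_hull_iff]
    refine ⟨w, fun v => ?_, hw2⟩
    by_cases hv : v ∈ B
    · exact (hw0 v hv).le
    · rw [hw1 v hv]
  let Nul : Set (κ → ℝ) := ⋃ C : {C : Finset ι // C.card ≤ Fintype.card κ},
    {x : κ → ℝ | hom x ∈ Submodule.span ℝ (h '' (C.1 : Set ι))}
  have hNul : volume Nul = 0 := by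
    rw [measure_iUnion_null_iff]
    rintro ⟨C, h2⟩
    apply volume_hom_mem
    intro htop
    have h1 : Module.finrank ℝ (Submodule.span ℝ (h '' (C : Set ι))) ≤ C.card := by
      have : h '' (C : Set ι) = ((C.image h : Finset _) : Set (κ ⊕ Unit → ℝ)) := by simp
      rw [this]
      exact (finrank_span_finset_le_card _).trans Finset.card_image_le
    rw [htop, finrank_top] at h1
    simp at h1
    omega
  have hcover : convexHull ℝ (range p) ⊆ (⋃ B : G, cell h B.1) ∪ Nul := by
    intro x hx
    by_cases hN : x ∈ Nul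
    · exact Or.inr hN
    · left
      obtain ⟨B, hB, hxB⟩ := exists_good p ω hω x hx (by
        intro C hC hmem
        apply hN
        simp only [Nul, mem_iUnion]
        exact ⟨⟨C, hC⟩, hmem⟩)
      rw [mem_iUnion]
      exact ⟨⟨B, (hG B).mpr hB⟩, hxB⟩
  have hvol : volume (convexHull ℝ (range p)) = volume (⋃ B : G, cell h B.1) := by
    apply le_antisymm
    · calc volume (convexHull ℝ (range p)) ≤ volume ((⋃ B : G, cell h B.1) ∪ Nul) :=
            measure_mono hcover
        _ ≤ volume (⋃ B : G, cell h B.1) + volume Nul := measure_union_le _ _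
        _ = _ := by rw [hNul, add_zero]
    · exact measure_mono (iUnion_subset fun B => hcellsub B.1)
  have hunion : volume (⋃ B : G, cell h B.1) = ∑ B : G, volume (cell h B.1) := by
    rw [measure_iUnion, tsum_fintype]
    · intro B B' hne
      exact cell_disjoint h ω ((hG _).mp B.2) ((hG _).mp B'.2) (fun hc => hne (Subtype.ext hc))
    · intro B
      exact measurableSet_cell p ω B.1 ((hG _).mp B.2)
  have hfin : ∀ B : G, volume (cell h B.1) ≠ ⊤ := by
    intro B
    refine ne_top_of_le_ne_top ?_ (measure_mono (hcellsub B.1))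
    exact ((finite_range p).isCompact_convexHull ℝ).measure_lt_top.ne
  have hreal : volume.real (convexHull ℝ (range p)) = ∑ B : G, volume.real (cell h B.1) := by
    rw [Measure.real, hvol, hunion, ENNReal.toReal_sum (fun B _ => hfin B)]
    rfl
  rw [hreal, Finset.mul_sum]
  refine Finset.sum_congr rfl fun B _ => ?_
  rw [volume_cell p B.1 (e B)]
  have : ((Fintype.card κ).factorial : ℝ) ≠ 0 := by
    exact_mod_cast (Nat.factorial_pos _).ne'
  field_simp
  rfl

end Pool.Agent.H19
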