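import Mathlib
import Pool.Agent.helper19.HullVolume
import Pool.Agent.helper19.Adapted

set_option autoImplicit false
set_option linter.unusedSectionVars false

/-!
Fixed polytopes of affine lattice automorphisms of finite order.
-/

namespace Pool.Agent.H19

open Matrix MeasureTheory Set Polynomial

/-- Integral homogenisation at height `k`. -/
def homZ {n : ℕ} (z : Fin n → ℤ) (k : ℤ) : Fin n ⊕ Unit → ℤ := Sum.elim z (fun _ => k)

@[simp] lemma homZ_inl {n : ℕ} (z : Fin n → ℤ) (k : ℤ) (i : Fin n) :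
    homZ z k (Sum.inl i) = z i := rfl
@[simp] lemma homZ_inr {n : ℕ} (z : Fin n → ℤ) (k : ℤ) (i : Unit) :
    homZ z k (Sum.inr i) = k := rfl

/-- The homogenised matrix of the affine map `z ↦ A z + τ`. -/
def hatM {n : ℕ} (A : Matrix (Fin n) (Fin n) ℤ) (τ : Fin n → ℤ) :
    Matrix (Fin n ⊕ Unit) (Fin n ⊕ Unit) ℤ :=
  fromBlocks A (Matrix.of fun i _ => τ i) 0 1

lemma hatM_mulVec {n : ℕ} (A : Matrix (Fin n) (Fin n) ℤ) (τ z : Fin n → ℤ) (k : ℤ) :
    (hatM A τ).mulVec (homZ z k) = homZ (A.mulVec z + k • τ) k := by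
  funext i
  rcases i with i | i
  · simp [hatM, homZ, Matrix.mulVec, dotProduct, Fintype.sum_sum_type, mul_comm]
  · simp [hatM, homZ, Matrix.mulVec, dotProduct, Fintype.sum_sum_type]

lemma hatM_mul {n : ℕ} (A B : Matrix (Fin n) (Fin n) ℤ) (τ σ : Fin n → ℤ) :
    hatM A τ * hatM B σ = hatM (A * B) (A.mulVec σ + τ) := by
  rw [hatM, hatM, hatM, fromBlocks_multiply]
  congr 1
  · simp
  · ext i j
    simp [Matrix.mul_apply, Matrix.mulVec, dotProduct]
  · simp
  · simp

lemma hatM_one {n : ℕ} : hatM (1 : Matrix (Fin n) (Fin n) ℤ) 0 = 1 := by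
  rw [hatM, ← fromBlocks_one]
  congr 1

lemma homZ_eta {n : ℕ} (w : Fin n ⊕ Unit → ℤ) :
    w = homZ (fun i => w (Sum.inl i)) (w (Sum.inr ())) := by
  funext i
  rcases i with i | i <;> simp

lemma mem_fixZ_hatM {n : ℕ} {A : Matrix (Fin n) (Fin n) ℤ} {τ z : Fin n → ℤ} {k : ℤ} :
    homZ z k ∈ fixZ (hatM A τ) ↔ A.mulVec z + k • τ = z := by
  rw [mem_fixZ, hatM_mulVec]
  constructor
  · intro h
    funext i
    exact congrFun h (Sum.inl i)
  · intro h
    rw [h]

section main

variable {n : ℕ} (A : Matrix (Fin n) (Fin n) ℤ) (τ : Fin n → ℤ) (z₀ : Fin n → ℤ) (ind : ℕ)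
  (hind : 0 < ind) (hz₀ : homZ z₀ ind ∈ fixZ (hatM A τ))
  (hmin : ∀ (k : ℕ), 0 < k → ∀ z, homZ z k ∈ fixZ (hatM A τ) → ind ≤ k)

include hind hz₀ hmin

lemma ind_dvd {z : Fin n → ℤ} {k : ℤ} (hz : homZ z k ∈ fixZ (hatM A τ)) : (ind : ℤ) ∣ k := by
  rw [Int.dvd_iff_emod_eq_zero]
  by_contra hne
  have hpos : (0 : ℤ) < ind := by exact_mod_cast hind
  have h0 : 0 ≤ k % ind := Int.emod_nonneg _ hpos.ne'
  have h1 : k % ind < ind := Int.emod_lt_of_pos _ hpos
  have h2 : 0 < k % ind := lt_of_le_of_ne h0 (Ne.symm hne)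
  obtain ⟨r, hr⟩ := Int.eq_ofNat_of_zero_le h0
  have hr0 : 0 < r := by rw [hr] at h2; exact_mod_cast h2
  have hmem : homZ (z - (k / ind) • z₀) (r : ℤ) ∈ fixZ (hatM A τ) := by
    have : homZ (z - (k / ind) • z₀) (r : ℤ) = homZ z k - (k / ind) • homZ z₀ ind := by
      funext i
      rcases i with i | i
      · simp
      · simp only [homZ_inr, Pi.sub_apply, Pi.smul_apply, smul_eq_mul]
        have h3 := Int.emod_add_mul_ediv k ind
        have h4 : (k % (ind : ℤ)) = (r : ℤ) := hr
        rw [h4] at h3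
        linarith
    rw [this]
    exact Submodule.sub_mem _ hz (Submodule.smul_mem _ _ hz₀)
  have := hmin r hr0 _ hmem
  have h5 : (r : ℤ) < ind := by rw [← hr]; exact h1
  have h6 : r < ind := by exact_mod_cast h5
  omega

/-- Basis of the homogenised fixed lattice. -/
lemma exists_basis {κ : Type} [Fintype κ] [DecidableEq κ] (b : Module.Basis κ ℤ (fixZ A)) :
    ∃ e : Module.Basis (κ ⊕ Unit) ℤ (fixZ (hatM A τ)),
      (∀ i, (e (Sum.inl i) : Fin n ⊕ Unit → ℤ) = homZ (b i) 0) ∧
      (∀ i, (e (Sum.inr i) : Fin n ⊕ Unit → ℤ) = homZ z₀ ind) := by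
  have hb0 : ∀ i, homZ (b i : Fin n → ℤ) 0 ∈ fixZ (hatM A τ) := by
    intro i
    rw [mem_fixZ_hatM, zero_smul, add_zero]
    exact mem_fixZ.mp (b i).2
  let v : κ ⊕ Unit → fixZ (hatM A τ) :=
    Sum.elim (fun i => ⟨homZ (b i) 0, hb0 i⟩) (fun _ => ⟨homZ z₀ ind, hz₀⟩)
  have hli : LinearIndependent ℤ v := by
    rw [Fintype.linearIndependent_iff]
    intro g hg
    have hg' : ∑ j, g j • (v j : Fin n ⊕ Unit → ℤ) = 0 := by
      have := congrArg (fun w : fixZ (hatM A τ) => (w : Fin n ⊕ Unit → ℤ)) hg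
      simpa using this
    rw [Fintype.sum_sum_type] at hg'
    simp only [v, Sum.elim_inl, Sum.elim_inr, Finset.univ_unique, Finset.sum_singleton] at hg'
    have hlast := congrFun hg' (Sum.inr ())
    simp only [Pi.add_apply, Finset.sum_apply, Pi.smul_apply, homZ_inr, smul_eq_mul, mul_zero,
      Finset.sum_const_zero, zero_add, Pi.zero_apply] at hlast
    have hg1 : g (Sum.inr default) = 0 := by
      rcases mul_eq_zero.mp hlast with h | h
      · exact h
      · exfalso
        have : (ind : ℤ) ≠ 0 := by exact_mod_cast hind.ne'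
        exact this h
    rw [hg1, zero_smul, add_zero] at hg'
    have hg2 : ∑ i, g (Sum.inl i) • (b i) = 0 := by
      apply Subtype.ext
      simp only [Submodule.coe_sum, Submodule.coe_smul, Submodule.coe_zero]
      funext k
      have := congrFun hg' (Sum.inl k)
      simp only [Finset.sum_apply, Pi.smul_apply, homZ_inl, smul_eq_mul, Pi.zero_apply] at this
      simpa [Finset.sum_apply] using this
    have hg3 := (Fintype.linearIndependent_iff.mp b.linearIndependent) _ hg2
    rintro (i | i)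
    · exact hg3 i
    · exact hg1
  have hsp : ⊤ ≤ Submodule.span ℤ (Set.range v) := by
    rintro ⟨w, hw⟩ -
    have hw' := hw
    rw [homZ_eta w] at hw'
    set z : Fin n → ℤ := fun i => w (Sum.inl i) with hz
    set k : ℤ := w (Sum.inr ()) with hk
    obtain ⟨q, hq⟩ := ind_dvd A τ z₀ ind hind hz₀ hmin hw'
    have hy : z - q • z₀ ∈ fixZ A := by
      have h1 := mem_fixZ_hatM.mp hw'
      have h2 := mem_fixZ_hatM.mp hz₀
      rw [mem_fixZ, Matrix.mulVec_sub, Matrix.mulVec_smul]
      have h4 : A.mulVec z₀ = z₀ - (ind : ℤ) • τ := by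
        rw [eq_sub_iff_add_eq]; exact h2
      have h3' : A.mulVec z = z - k • τ := by
        rw [eq_sub_iff_add_eq]; exact h1
      rw [h3', h4, hq, smul_sub, smul_smul, mul_comm q]
      abel
    have hrep : (⟨w, hw⟩ : fixZ (hatM A τ)) =
        ∑ i, (b.repr ⟨z - q • z₀, hy⟩ i) • v (Sum.inl i) + q • v (Sum.inr ()) := by
      apply Subtype.ext
      simp only [Submodule.coe_add, Submodule.coe_sum, Submodule.coe_smul, v, Sum.elim_inl,
        Sum.elim_inr]
      have h1 := b.sum_repr ⟨z - q • z₀, hy⟩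
      have h2 : ∑ i, (b.repr ⟨z - q • z₀, hy⟩ i) • (b i : Fin n → ℤ) = z - q • z₀ := by
        have := congrArg Subtype.val h1
        rw [Submodule.coe_sum] at this
        simpa only [Submodule.coe_smul] using this
      funext j
      rcases j with j | j
      · have := congrFun h2 j
        simp only [Finset.sum_apply, Pi.smul_apply, smul_eq_mul, Pi.sub_apply] at this
        simp only [Pi.add_apply, Finset.sum_apply, Pi.smul_apply, homZ_inl, smul_eq_mul]
        rw [this]
        simp [hz]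
      · simp only [Pi.add_apply, Finset.sum_apply, Pi.smul_apply, homZ_inr, smul_eq_mul, mul_zero,
          Finset.sum_const_zero, zero_add]
        rw [mul_comm]
        exact hq
    rw [hrep]
    refine Submodule.add_mem _ (Submodule.sum_mem _ fun i _ => Submodule.smul_mem _ _
      (Submodule.subset_span ⟨_, rfl⟩)) (Submodule.smul_mem _ _ (Submodule.subset_span ⟨_, rfl⟩))
  refine ⟨Module.Basis.mk hli hsp, ?_, ?_⟩
  · intro i
    rw [Module.Basis.mk_apply]
    rfl
  · intro i
    rw [Module.Basis.mk_apply]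
    rfl

end main

end Pool.Agent.H19
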