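import Mathlib
import Pool.Agent.helper19.FixedPolytope

set_option autoImplicit false
set_option linter.unusedSectionVars false

namespace Pool.Agent.H19

open Matrix MeasureTheory Set Polynomial
open scoped Pointwise

section real

variable {N : Type} [Fintype N] [DecidableEq N]

/-- real cast of an integer matrix -/
def rM (M : Matrix N N ℤ) : Matrix N N ℝ := M.map (Int.cast : ℤ → ℝ)

lemma rM_mulVec (M : Matrix N N ℤ) (x : N → ℤ) : (rM M).mulVec (castV x) = castV (M.mulVec x) := by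
  funext i
  simp [rM, castV, Matrix.mulVec, dotProduct]

lemma rM_pow (M : Matrix N N ℤ) (j : ℕ) : rM (M ^ j) = rM M ^ j := by
  have h1 : ∀ M : Matrix N N ℤ, rM M = (Int.castRingHom ℝ).mapMatrix M := fun M => rfl
  rw [h1, h1, map_pow]

/-- real averaging map -/
noncomputable def avgR (M : Matrix N N ℤ) (m : ℕ) : (N → ℝ) →ₗ[ℝ] (N → ℝ) :=
  (1 / (m : ℝ)) • ∑ j ∈ Finset.range m, (rM M ^ j).mulVecLin

lemma avgR_apply (M : Matrix N N ℤ) (m : ℕ) (y : N → ℝ) :
    avgR M m y = (1 / (m : ℝ)) • ∑ j ∈ Finset.range m, (rM M ^ j).mulVec y := by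
  simp [avgR]

lemma avgR_castV (M : Matrix N N ℤ) (m : ℕ) (x : N → ℤ) : avgR M m (castV x) = avgL M m x := by
  rw [avgR_apply, avgL_apply]
  congr 1
  refine Finset.sum_congr rfl fun j _ => ?_
  rw [← rM_pow, rM_mulVec]

lemma mulVec_avgR (M : Matrix N N ℤ) (m : ℕ) (hM : M ^ m = 1) (y : N → ℝ) :
    (rM M).mulVec (avgR M m y) = avgR M m y := by
  rw [avgR_apply, Matrix.mulVec_smul]
  congr 1
  rw [Matrix.mulVec_sum]
  have h1 : ∀ j, (rM M).mulVec ((rM M ^ j).mulVec y) = (rM M ^ (j + 1)).mulVec y := by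
    intro j
    rw [Matrix.mulVec_mulVec, pow_succ']
  simp_rw [h1]
  have h2 := Finset.sum_range_succ' (fun j => (rM M ^ j).mulVec y) m
  have h3 := Finset.sum_range_succ (fun j => (rM M ^ j).mulVec y) m
  rw [h3] at h2
  have h4 : rM M ^ m = 1 := by
    rw [← rM_pow, hM]
    ext i j
    simp [rM, Matrix.one_apply]
  rw [h4, pow_zero] at h2
  exact (add_right_cancel h2).symm

lemma avgR_fix (M : Matrix N N ℤ) (m : ℕ) (hm : 0 < m) (y : N → ℝ)
    (hy : (rM M).mulVec y = y) : avgR M m y = y := by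
  have h1 : ∀ j : ℕ, (rM M ^ j).mulVec y = y := by
    intro j
    induction j with
    | zero => simp
    | succ j ih => rw [pow_succ, ← Matrix.mulVec_mulVec, hy, ih]
  rw [avgR_apply]
  simp_rw [h1]
  rw [Finset.sum_const, Finset.card_range]
  have : (m : ℝ) ≠ 0 := by exact_mod_cast hm.ne'
  rw [← Nat.cast_smul_eq_nsmul ℝ, smul_smul]
  rw [one_div, inv_mul_cancel₀ this, one_smul]

theorem exists_adapted_real (M : Matrix N N ℤ) (m : ℕ) (hm : 0 < m) (hM : M ^ m = 1)
    {α : Type} [Fintype α] [DecidableEq α] (e : Module.Basis α ℤ (fixZ M)) :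
    ∃ (D : ℤ) (q : ℤ[X]) (p : (N → ℝ) →ₗ[ℝ] (α → ℝ)),
      0 < D ∧ q.eval 1 = D ∧ M.charpoly = (X - C 1) ^ (Fintype.card α) * q ∧
      (∀ a, p (castV (e a : N → ℤ)) = Pi.single a 1) ∧
      (∀ y, ∑ a, p y a • castV (e a : N → ℤ) = avgR M m y) ∧
      (∀ x : α → (N → ℤ), ∃ z : ℤ,
        (D : ℝ) * (Matrix.of fun j a => p (castV (x j)) a).det = z) := by
  obtain ⟨D, q, p, h1, h2, h3, h4, h5, h6⟩ := exists_adapted M m hm hM e
  let pR : (N → ℝ) →ₗ[ℝ] (α → ℝ) := (Pi.basisFun ℝ N).constr ℝ (fun i => p (Pi.single i 1))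
  have hpR : ∀ x : N → ℤ, pR (castV x) = p x := by
    intro x
    have e1 : castV x = ∑ i, (x i : ℝ) • (Pi.basisFun ℝ N) i := by
      funext k
      simp [castV, Finset.sum_apply, Pi.single_apply]
    have e2 : x = ∑ i, x i • (Pi.single i 1 : N → ℤ) := by
      funext k
      simp [Finset.sum_apply, Pi.single_apply]
    rw [e1, map_sum]
    conv_rhs => rw [e2, map_sum]
    refine Finset.sum_congr rfl fun i _ => ?_
    rw [map_smul, map_smul, Module.Basis.constr_basis]
    funext a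
    simp
  refine ⟨D, q, pR, h1, h2, h3, ?_, ?_, ?_⟩
  · intro a
    rw [hpR, h4]
  · intro y
    let Φ : (α → ℝ) →ₗ[ℝ] (N → ℝ) :=
      { toFun := fun s => ∑ a, s a • castV (e a : N → ℤ)
        map_add' := by
          intro s t
          simp [add_smul, Finset.sum_add_distrib]
        map_smul' := by
          intro c s
          simp only [Finset.smul_sum, Pi.smul_apply, RingHom.id_apply]
          refine Finset.sum_congr rfl fun a _ => ?_
          rw [smul_assoc] }
    have hEq : Φ ∘ₗ pR = avgR M m := by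
      apply (Pi.basisFun ℝ N).ext
      intro i
      have e3 : (Pi.basisFun ℝ N) i = castV (Pi.single i 1 : N → ℤ) := by
        funext k
        by_cases h : k = i
        · subst h; simp [castV]
        · simp [castV, h]
      rw [LinearMap.comp_apply, e3, hpR, avgR_castV, ← h5]
      rfl
    exact LinearMap.congr_fun hEq y
  · intro x
    obtain ⟨z, hz⟩ := h6 x
    refine ⟨z, ?_⟩
    rw [← hz]
    simp_rw [hpR]

end real

section geom

variable {n : ℕ}

lemma hom_castV (z : Fin n → ℤ) : hom (castV z) = castV (homZ z 1) := by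
  funext i
  rcases i with i | i <;> simp [castV]

/-- the real affine map -/
def TR (A : Matrix (Fin n) (Fin n) ℤ) (τ : Fin n → ℤ) (x : Fin n → ℝ) : Fin n → ℝ :=
  (A.map (Int.cast : ℤ → ℝ)).mulVec x + (fun i => (τ i : ℝ))

lemma hom_TR (A : Matrix (Fin n) (Fin n) ℤ) (τ : Fin n → ℤ) (x : Fin n → ℝ) :
    (rM (hatM A τ)).mulVec (hom x) = hom (TR A τ x) := by
  funext i
  rcases i with i | i
  · simp [hatM, rM, hom, TR, Matrix.mulVec, dotProduct, Fintype.sum_sum_type, Matrix.map_apply]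
  · simp [hatM, rM, hom, Matrix.mulVec, dotProduct, Fintype.sum_sum_type, Matrix.map_apply]

lemma hom_TR_iter (A : Matrix (Fin n) (Fin n) ℤ) (τ : Fin n → ℤ) (x : Fin n → ℝ) (j : ℕ) :
    (rM (hatM A τ) ^ j).mulVec (hom x) = hom ((TR A τ)^[j] x) := by
  induction j with
  | zero => simp
  | succ j ih =>
    rw [pow_succ', ← Matrix.mulVec_mulVec, ih, hom_TR, Function.iterate_succ_apply']

lemma hom_injective : Function.Injective (hom : (Fin n → ℝ) → _) := by
  intro x y h
  funext i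
  exact congrFun h (Sum.inl i)

lemma fix_iff (A : Matrix (Fin n) (Fin n) ℤ) (τ : Fin n → ℤ) (x : Fin n → ℝ) :
    TR A τ x = x ↔ (rM (hatM A τ)).mulVec (hom x) = hom x := by
  rw [hom_TR]
  exact hom_injective.eq_iff.symm

/-- the averaged point -/
noncomputable def beta (A : Matrix (Fin n) (Fin n) ℤ) (τ : Fin n → ℤ) (m : ℕ) :
    (Fin n → ℝ) →ᵃ[ℝ] (Fin n → ℝ) :=
  ((LinearMap.funLeft ℝ ℝ (Sum.inl : Fin n → Fin n ⊕ Unit)) ∘ₗ
    (avgR (hatM A τ) m)).toAffineMap.comp homAff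

lemma beta_apply (A : Matrix (Fin n) (Fin n) ℤ) (τ : Fin n → ℤ) (m : ℕ) (x : Fin n → ℝ)
    (i : Fin n) : beta A τ m x i = avgR (hatM A τ) m (hom x) (Sum.inl i) := rfl

lemma hom_beta (A : Matrix (Fin n) (Fin n) ℤ) (τ : Fin n → ℤ) (m : ℕ) (hm : 0 < m)
    (x : Fin n → ℝ) : hom (beta A τ m x) = avgR (hatM A τ) m (hom x) := by
  funext i
  rcases i with i | i
  · rfl
  · rw [hom_inr, avgR_apply]
    simp_rw [hom_TR_iter]
    have : (m : ℝ) ≠ 0 := by exact_mod_cast hm.ne'
    simp [Finset.sum_apply, this]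

lemma beta_eq (A : Matrix (Fin n) (Fin n) ℤ) (τ : Fin n → ℤ) (m : ℕ)
    (x : Fin n → ℝ) : beta A τ m x = ∑ j ∈ Finset.range m, (1 / (m : ℝ)) • ((TR A τ)^[j] x) := by
  funext i
  rw [beta_apply, avgR_apply]
  simp_rw [hom_TR_iter]
  simp [Finset.sum_apply, Finset.mul_sum]

lemma beta_mem (A : Matrix (Fin n) (Fin n) ℤ) (τ : Fin n → ℤ) (m : ℕ) (hm : 0 < m)
    (P : Set (Fin n → ℝ)) (hconv : Convex ℝ P) (hinv : ∀ x ∈ P, TR A τ x ∈ P)
    (x : Fin n → ℝ) (hx : x ∈ P) : beta A τ m x ∈ P := by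
  rw [beta_eq]
  apply hconv.sum_mem
  · intro j _; positivity
  · have : (m : ℝ) ≠ 0 := by exact_mod_cast hm.ne'
    simp [this]
  · intro j _
    have : ∀ j : ℕ, (TR A τ)^[j] x ∈ P := by
      intro j
      induction j with
      | zero => simpa using hx
      | succ j ih =>
        rw [Function.iterate_succ_apply']
        exact hinv _ ih
    exact this j

lemma beta_fixed (A : Matrix (Fin n) (Fin n) ℤ) (τ : Fin n → ℤ) (m : ℕ) (hm : 0 < m)
    (hM : (hatM A τ) ^ m = 1) (x : Fin n → ℝ) : TR A τ (beta A τ m x) = beta A τ m x := by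
  rw [fix_iff, hom_beta A τ m hm, mulVec_avgR _ m hM]

lemma beta_of_fixed (A : Matrix (Fin n) (Fin n) ℤ) (τ : Fin n → ℤ) (m : ℕ) (hm : 0 < m)
    (x : Fin n → ℝ) (hx : TR A τ x = x) : beta A τ m x = x := by
  apply hom_injective
  rw [hom_beta A τ m hm]
  exact avgR_fix _ m hm _ ((fix_iff A τ x).mp hx)

/-- the affine subspace of fixed points -/
noncomputable def fixA (A : Matrix (Fin n) (Fin n) ℤ) (τ : Fin n → ℤ) :
    AffineSubspace ℝ (Fin n → ℝ) :=
  (LinearMap.ker ((rM (hatM A τ)).mulVecLin - LinearMap.id)).toAffineSubspace.comap homAff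

lemma mem_fixA (A : Matrix (Fin n) (Fin n) ℤ) (τ : Fin n → ℤ) (x : Fin n → ℝ) :
    x ∈ fixA A τ ↔ TR A τ x = x := by
  rw [fixA, AffineSubspace.mem_comap, Submodule.mem_toAffineSubspace, LinearMap.mem_ker,
    LinearMap.sub_apply, sub_eq_zero, fix_iff]
  rfl

lemma affineSpan_fixed (A : Matrix (Fin n) (Fin n) ℤ) (τ : Fin n → ℤ) (m : ℕ) (hm : 0 < m)
    (hM : (hatM A τ) ^ m = 1) (P : Set (Fin n → ℝ)) (hconv : Convex ℝ P)
    (haff : affineSpan ℝ P = ⊤) (hinv : ∀ x ∈ P, TR A τ x ∈ P) :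
    affineSpan ℝ {x | x ∈ P ∧ TR A τ x = x} = fixA A τ := by
  apply le_antisymm
  · rw [affineSpan_le]
    intro x hx
    exact (mem_fixA A τ x).mpr hx.2
  · intro x hx
    rw [mem_fixA] at hx
    have h1 : beta A τ m x ∈ (affineSpan ℝ P).map (beta A τ m) := by
      rw [AffineSubspace.mem_map]
      exact ⟨x, by rw [haff]; trivial, rfl⟩
    rw [AffineSubspace.map_span, beta_of_fixed A τ m hm x hx] at h1
    refine affineSpan_mono ℝ ?_ h1
    rintro _ ⟨y, hy, rfl⟩
    exact ⟨beta_mem A τ m hm P hconv hinv y hy, beta_fixed A τ m hm hM y⟩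

/-- Characterisation of lattice points in the affine span of the dilate. -/
lemma mem_affineSpan_smul_iff (A : Matrix (Fin n) (Fin n) ℤ) (τ : Fin n → ℤ) (Pg : Set (Fin n → ℝ))
    (hPg : affineSpan ℝ Pg = fixA A τ) (k : ℕ) (hk : 0 < k) (z : Fin n → ℤ) :
    (fun i => (z i : ℝ)) ∈ affineSpan ℝ ((k : ℝ) • Pg) ↔ homZ z k ∈ fixZ (hatM A τ) := by
  have hkR : (k : ℝ) ≠ 0 := by exact_mod_cast hk.ne'
  have h1 : (k : ℝ) • Pg = ((k : ℝ) • (LinearMap.id : (Fin n → ℝ) →ₗ[ℝ] (Fin n → ℝ))).toAffineMap ''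
      Pg := by
    ext x
    simp [Set.mem_smul_set]
  rw [h1, ← AffineSubspace.map_span, hPg, AffineSubspace.mem_map]
  have hkey : ∀ x : Fin n → ℝ, (k : ℝ) • x = castV z →
      (TR A τ x = x ↔ homZ z k ∈ fixZ (hatM A τ)) := by
    intro x hx
    rw [fix_iff, mem_fixZ]
    have h2 : (k : ℝ) • hom x = castV (homZ z k) := by
      funext i
      rcases i with i | i
      · have := congrFun hx i
        simpa [castV] using this
      · simp [castV]
    constructor
    · intro h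
      apply castV_injective
      rw [← rM_mulVec, ← h2, Matrix.mulVec_smul, h]
    · intro h
      have h3 : (rM (hatM A τ)).mulVec (castV (homZ z k)) = castV (homZ z k) := by
        rw [rM_mulVec, h]
      rw [← h2, Matrix.mulVec_smul] at h3
      exact smul_right_injective _ hkR h3
  constructor
  · rintro ⟨x, hx, hxz⟩
    rw [mem_fixA] at hx
    exact (hkey x hxz).mp hx
  · intro h
    refine ⟨(k : ℝ)⁻¹ • castV z, ?_, ?_⟩
    · rw [mem_fixA]
      apply (hkey _ _).mpr h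
      rw [smul_smul, mul_inv_cancel₀ hkR, one_smul]
    · change (k : ℝ) • ((k : ℝ)⁻¹ • castV z) = _
      rw [smul_smul, mul_inv_cancel₀ hkR, one_smul]
      rfl

end geom

end Pool.Agent.H19
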